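import Pool.Agent.Y556.SK.Zer
import Pool.Agent.W935.SK.BI2

/-!
# Two-sided solutions of a simple recurrence as sums of powers
-/

set_option autoImplicit false

namespace Pool.Agent.Q183.SKY

open Polynomial Finset Pool.Agent.H884R2.Sko Pool.Agent.W935.SK
open Pool.Agent.Helper259.AbsHt Pool.Agent.Y215.SK

/-- two-sided solutions of the recurrence -/
def Sol {K : Type*} [Field K] {d : ℕ} (c : Fin d → K) (w : ℤ → K) : Prop :=
  ∀ n : ℤ, w (n + d) = ∑ i : Fin d, c i * w (n + d - 1 - ((i : ℕ) : ℤ))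

theorem sol_zero {K : Type*} [Field K] {d : ℕ} (hd : 1 ≤ d) (c : Fin d → K)
    (hc : c ⟨d - 1, by omega⟩ ≠ 0) (w : ℤ → K) (hw : Sol c w)
    (h0 : ∀ i : Fin d, w ((i : ℕ) : ℤ) = 0) (n : ℤ) : w n = 0 := by
  have key : ∀ n : ℤ, ∀ i : ℕ, i < d → w (n + i) = 0 := by
    intro n
    induction n using Int.induction_on with
    | zero =>
      intro i hi
      have := h0 ⟨i, hi⟩
      simpa using this
    | succ n ih =>
      intro i hi
      rcases Nat.lt_or_ge (i + 1) d with h | h
      · have h1 := ih (i + 1) h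
        have e : ((n : ℤ) + 1 + i) = (n : ℤ) + ((i + 1 : ℕ) : ℤ) := by push_cast; ring
        rw [e]
        exact h1
      · have e : ((n : ℤ) + 1 + i) = (n : ℤ) + d := by omega
        rw [e, hw]
        apply Finset.sum_eq_zero
        intro j _
        have hj := j.2
        have h1 := ih (d - 1 - (j : ℕ)) (by omega)
        have e2 : ((n : ℤ) + d - 1 - ((j : ℕ) : ℤ)) = (n : ℤ) + ((d - 1 - (j : ℕ) : ℕ) : ℤ) := by
          omega
        rw [e2, h1, mul_zero]
    | pred n ih =>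
      intro i hi
      rcases Nat.eq_zero_or_pos i with rfl | h
      · have h1 := hw (-(n : ℤ) - 1)
        have h2 := ih (d - 1) (by omega)
        have e : -(n : ℤ) - 1 + d = -(n : ℤ) + ((d - 1 : ℕ) : ℤ) := by omega
        rw [e, h2] at h1
        rw [Finset.sum_eq_single ⟨d - 1, by omega⟩] at h1
        · have e2 : (-(n : ℤ) + ((d - 1 : ℕ) : ℤ) - 1 -
              (((⟨d - 1, by omega⟩ : Fin d) : ℕ) : ℤ)) = -(n : ℤ) - 1 := by
            simp only
            ring
          rw [e2] at h1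
          have h3 := (mul_eq_zero.1 h1.symm).resolve_left hc
          simpa using h3
        · intro j _ hj
          have hj2 : (j : ℕ) ≠ d - 1 := fun h => hj (Fin.ext h)
          have hj3 := j.2
          have h3 := ih (d - 2 - (j : ℕ)) (by omega)
          have e2 : (-(n : ℤ) + ((d - 1 : ℕ) : ℤ) - 1 - ((j : ℕ) : ℤ)) =
              -(n : ℤ) + ((d - 2 - (j : ℕ) : ℕ) : ℤ) := by omega
          rw [e2, h3, mul_zero]
        · intro h
          exact absurd (Finset.mem_univ _) h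
      · have h1 := ih (i - 1) (by omega)
        have e : (-(n : ℤ) - 1 + i) = -(n : ℤ) + ((i - 1 : ℕ) : ℤ) := by omega
        rw [e]
        exact h1
  have := key n 0 (by omega)
  simpa using this

/-- the roots of a monic polynomial with multiplicities (copy of the lemma of the same name in
`Pool.Agent.Y556.SK.Bound`) -/
theorem exists_roots (q : ℚ[X]) (hq : q.Monic) : ∃ Λ : Fin q.natDegree → Qbar,
    q.map (algebraMap ℚ Qbar) = ∏ i, (X - C (Λ i)) ∧
      (Squarefree q → Function.Injective Λ) := by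
  set P := q.map (algebraMap ℚ Qbar) with hP
  have hmon : P.Monic := hq.map _
  have hdeg : P.natDegree = q.natDegree := by
    rw [hP, hq.natDegree_map]
  have hsp : P.Splits := IsAlgClosed.splits P
  have hcard : P.roots.toList.length = q.natDegree := by
    rw [Multiset.length_toList, ← hsp.natDegree_eq_card_roots, hdeg]
  refine ⟨fun i => P.roots.toList.get (i.cast hcard.symm), ?_, fun hsq => ?_⟩
  · have h1 : P = (P.roots.toList.map (fun a => X - C a)).prod := by
      have h2 := hsp.eq_prod_roots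
      rw [hmon.leadingCoeff, map_one, one_mul] at h2
      conv_lhs => rw [h2]
      conv_lhs => rw [← Multiset.coe_toList P.roots]
      rw [Multiset.map_coe, Multiset.prod_coe]
    have h3 : ∏ i : Fin q.natDegree, (X - C (P.roots.toList.get (i.cast hcard.symm))) =
        ∏ i : Fin P.roots.toList.length, (X - C (P.roots.toList.get i)) :=
      Fintype.prod_equiv (finCongr hcard.symm) _ _ fun i => rfl
    rw [h3, ← List.prod_ofFn]
    conv_lhs => rw [h1]
    congr 1
    have h4 := List.ofFn_get P.roots.toList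
    conv_lhs => rw [← h4]
    rw [List.map_ofFn]
    rfl
  · have hsep : q.Separable := PerfectField.separable_iff_squarefree.2 hsq
    have hnd : P.roots.Nodup := nodup_roots (hsep.map)
    have hnd2 : P.roots.toList.Nodup := by
      rw [← Multiset.coe_nodup, Multiset.coe_toList]
      exact hnd
    have hinj := List.nodup_iff_injective_get.1 hnd2
    intro i j hij
    have := hinj hij
    exact Fin.cast_injective _ this

/-- the roots of the characteristic polynomial -/
theorem exists_lam {d : ℕ} (hd : 1 ≤ d) (c : Fin d → ℤ) (hc : c ⟨d - 1, by omega⟩ ≠ 0)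
    (hsq : Squarefree ((charPoly c).map (Int.castRingHom ℚ))) :
    ∃ Λ : Fin d → Qbar, Function.Injective Λ ∧ (∀ i, Λ i ≠ 0) ∧
      (charPoly c).map (Int.castRingHom Qbar) = ∏ i, (X - C (Λ i)) ∧
      ∀ i, Λ i ^ d = ∑ j : Fin d, (c j : Qbar) * Λ i ^ (d - 1 - (j : ℕ)) := by
  set P := (charPoly c).map (Int.castRingHom ℚ) with hP
  have hm : (charPoly c).Monic := by
    rw [charPoly_eq]
    exact chi_monic _
  have hPm : P.Monic := hm.map _
  have hPd : P.natDegree = d := by
    rw [hP, hm.natDegree_map, charPoly_eq]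
    exact chi_natDegree _
  obtain ⟨Λ, h1, h2⟩ := exists_roots P hPm
  have h3 : (charPoly c).map (Int.castRingHom Qbar) =
      ∏ i : Fin d, (X - C (Λ (Fin.cast hPd.symm i))) := by
    have e1 : (charPoly c).map (Int.castRingHom Qbar) = P.map (algebraMap ℚ Qbar) := by
      rw [hP, Polynomial.map_map]
      congr 1
    rw [e1, h1]
    exact (Fintype.prod_equiv (finCongr hPd.symm) _ _ fun i => rfl).symm
  have h4 : ∀ i : Fin d, Λ (Fin.cast hPd.symm i) ^ d =
      ∑ j : Fin d, (c j : Qbar) * Λ (Fin.cast hPd.symm i) ^ (d - 1 - (j : ℕ)) := by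
    intro i
    have e1 : ((charPoly c).map (Int.castRingHom Qbar)).eval (Λ (Fin.cast hPd.symm i)) = 0 := by
      rw [h3, eval_prod]
      exact Finset.prod_eq_zero (Finset.mem_univ i) (by simp)
    unfold charPoly at e1
    rw [Polynomial.map_sub, Polynomial.map_pow, map_X, Polynomial.map_sum, eval_sub, eval_pow,
      eval_X, eval_finsetSum, sub_eq_zero] at e1
    rw [e1]
    refine Finset.sum_congr rfl fun j _ => ?_
    simp
  refine ⟨fun i => Λ (Fin.cast hPd.symm i), ?_, ?_, h3, h4⟩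
  · intro i j hij
    exact Fin.cast_injective _ (h2 hsq hij)
  · intro i h0
    have e1 := h4 i
    simp only at h0
    rw [h0, zero_pow (by omega), Finset.sum_eq_single ⟨d - 1, by omega⟩] at e1
    · simp only [Nat.sub_self, pow_zero, mul_one] at e1
      exact hc (by exact_mod_cast e1.symm)
    · intro j _ hj
      have hj2 : (j : ℕ) ≠ d - 1 := fun h => hj (Fin.ext h)
      have hj3 := j.2
      rw [zero_pow (by omega), mul_zero]
    · intro h
      exact absurd (Finset.mem_univ _) h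

/-- sums of powers of the roots are solutions -/
theorem sol_pow {d : ℕ} (c : Fin d → ℤ) (Λ : Fin d → Qbar) (h0 : ∀ i, Λ i ≠ 0)
    (h : ∀ i, Λ i ^ d = ∑ j : Fin d, (c j : Qbar) * Λ i ^ (d - 1 - (j : ℕ))) (y : Fin d → Qbar) :
    Sol (fun i => (c i : Qbar)) (fun n => ∑ i, y i * Λ i ^ n) := by
  intro n
  simp only [Finset.mul_sum]
  rw [Finset.sum_comm]
  refine Finset.sum_congr rfl fun i _ => ?_
  rw [zpow_add₀ (h0 i), zpow_natCast, h i, Finset.mul_sum, Finset.mul_sum]
  refine Finset.sum_congr rfl fun j _ => ?_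
  have hj := j.2
  have e : n + d - 1 - ((j : ℕ) : ℤ) = n + ((d - 1 - (j : ℕ) : ℕ) : ℤ) := by omega
  rw [e, zpow_add₀ (h0 i), zpow_natCast]
  ring

/-- the coefficients of the functional `a ↦ w m` -/
noncomputable def Aco {d : ℕ} (Λ : Fin d → Qbar) (j : Fin d) (m : ℤ) : Qbar :=
  ∑ i, (Matrix.vandermonde Λ)⁻¹ j i * Λ i ^ m

theorem vdm {d : ℕ} {Λ : Fin d → Qbar} (hinj : Function.Injective Λ) :
    (Matrix.vandermonde Λ) * (Matrix.vandermonde Λ)⁻¹ = 1 ∧
    (Matrix.vandermonde Λ)⁻¹ * (Matrix.vandermonde Λ) = 1 := by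
  have h : IsUnit (Matrix.vandermonde Λ).det :=
    isUnit_iff_ne_zero.2 (Matrix.det_vandermonde_ne_zero_iff.2 hinj)
  exact ⟨Matrix.mul_nonsing_inv _ h, Matrix.nonsing_inv_mul _ h⟩

theorem aco_root {d : ℕ} {Λ : Fin d → Qbar} (hinj : Function.Injective Λ) (k : Fin d) (m : ℤ) :
    ∑ j : Fin d, Λ k ^ (j : ℕ) * Aco Λ j m = Λ k ^ m := by
  have h := (vdm hinj).1
  have e : ∀ i, ∑ j : Fin d, Λ k ^ (j : ℕ) * (Matrix.vandermonde Λ)⁻¹ j i = if k = i then 1 else 0 := by
    intro i
    have h1 := congrFun (congrFun h k) i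
    rw [Matrix.mul_apply, Matrix.one_apply] at h1
    rw [← h1]
    refine Finset.sum_congr rfl fun j _ => ?_
    rw [Matrix.vandermonde_apply]
  calc ∑ j : Fin d, Λ k ^ (j : ℕ) * Aco Λ j m
      = ∑ i, (∑ j : Fin d, Λ k ^ (j : ℕ) * (Matrix.vandermonde Λ)⁻¹ j i) * Λ i ^ m := by
        unfold Aco
        simp only [Finset.mul_sum, Finset.sum_mul]
        rw [Finset.sum_comm]
        exact Finset.sum_congr rfl fun i _ => Finset.sum_congr rfl fun j _ => by ring
    _ = Λ k ^ m := by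
        simp only [e, ite_mul, one_mul, zero_mul]
        simp

/-- the coefficients of the sum of powers -/
noncomputable def yco {d : ℕ} (Λ : Fin d → Qbar) (a : Fin d → ℤ) (i : Fin d) : Qbar :=
  ∑ j, (a j : Qbar) * (Matrix.vandermonde Λ)⁻¹ j i

theorem bi_pow {d : ℕ} (hd : 1 ≤ d) (c : Fin d → ℤ) (hc : c ⟨d - 1, by omega⟩ ≠ 0)
    {Λ : Fin d → Qbar} (hinj : Function.Injective Λ) (h0 : ∀ i, Λ i ≠ 0)
    (h : ∀ i, Λ i ^ d = ∑ j : Fin d, (c j : Qbar) * Λ i ^ (d - 1 - (j : ℕ)))
    (a : Fin d → ℤ) (w : ℤ → ℚ) (hw : IsBi c a w) (m : ℤ) :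
    ((w m : ℚ) : Qbar) = ∑ i, yco Λ a i * Λ i ^ m := by
  have h1 := sol_zero hd (fun i => (c i : Qbar)) (by exact_mod_cast hc)
    (fun n => ((w n : ℚ) : Qbar) - ∑ i, yco Λ a i * Λ i ^ n) ?_ ?_ m
  · exact sub_eq_zero.1 h1
  · intro n
    have h2 := sol_pow c Λ h0 h (yco Λ a) n
    have h3 := hw.2 n
    simp only at h2 ⊢
    rw [h2, h3]
    push_cast
    rw [← Finset.sum_sub_distrib]
    exact Finset.sum_congr rfl fun i _ => by ring
  · intro l
    have h2 := hw.1 l
    have e : ∀ j, ∑ i, (Matrix.vandermonde Λ)⁻¹ j i * Λ i ^ (l : ℕ) = if j = l then 1 else 0 := by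
      intro j
      have h3 := congrFun (congrFun (vdm hinj).2 j) l
      rw [Matrix.mul_apply, Matrix.one_apply] at h3
      rw [← h3]
      exact Finset.sum_congr rfl fun i _ => by rw [Matrix.vandermonde_apply]
    have e2 : ∑ i, yco Λ a i * Λ i ^ (((l : ℕ) : ℤ)) = a l := by
      unfold yco
      simp only [zpow_natCast, Finset.sum_mul]
      rw [Finset.sum_comm]
      have e3 : ∀ j, ∑ i, (a j : Qbar) * (Matrix.vandermonde Λ)⁻¹ j i * Λ i ^ (l : ℕ) =
          (a j : Qbar) * if j = l then 1 else 0 := by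
        intro j
        rw [← e j, Finset.mul_sum]
        exact Finset.sum_congr rfl fun i _ => by ring
      simp only [e3]
      simp
    rw [e2, h2]
    push_cast
    ring

theorem bi_aco {d : ℕ} (hd : 1 ≤ d) (c : Fin d → ℤ) (hc : c ⟨d - 1, by omega⟩ ≠ 0)
    {Λ : Fin d → Qbar} (hinj : Function.Injective Λ) (h0 : ∀ i, Λ i ≠ 0)
    (h : ∀ i, Λ i ^ d = ∑ j : Fin d, (c j : Qbar) * Λ i ^ (d - 1 - (j : ℕ)))
    (a : Fin d → ℤ) (w : ℤ → ℚ) (hw : IsBi c a w) (m : ℤ) :
    ((w m : ℚ) : Qbar) = ∑ j, (a j : Qbar) * Aco Λ j m := by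
  rw [bi_pow hd c hc hinj h0 h a w hw m]
  unfold yco Aco
  simp only [Finset.mul_sum, Finset.sum_mul]
  rw [Finset.sum_comm]
  exact Finset.sum_congr rfl fun i _ => Finset.sum_congr rfl fun j _ => by ring

/-- the coefficients are rational -/
theorem aco_rat {d : ℕ} (hd : 1 ≤ d) (c : Fin d → ℤ) (hc : c ⟨d - 1, by omega⟩ ≠ 0)
    {Λ : Fin d → Qbar} (hinj : Function.Injective Λ) (h0 : ∀ i, Λ i ≠ 0)
    (h : ∀ i, Λ i ^ d = ∑ j : Fin d, (c j : Qbar) * Λ i ^ (d - 1 - (j : ℕ))) :
    ∃ r : Fin d → ℤ → ℚ, (∀ j m, ((r j m : ℚ) : Qbar) = Aco Λ j m) ∧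
      ∀ (a : Fin d → ℤ) (w : ℤ → ℚ), IsBi c a w → ∀ m, w m = ∑ j, (a j : ℚ) * r j m := by
  have h1 : ∀ j : Fin d, ∃ w, IsBi c (Pi.single j 1) w := fun j => by
    obtain ⟨_, _, _, _, _, _, _, _, _, h2⟩ := bi2 d hd c hc 0
    exact (h2 _).1
  choose r hr using h1
  have h2 : ∀ j m, ((r j m : ℚ) : Qbar) = Aco Λ j m := by
    intro j m
    rw [bi_aco hd c hc hinj h0 h _ _ (hr j) m, Finset.sum_eq_single j]
    · simp
    · intro i _ hi
      simp [Pi.single_eq_of_ne hi]
    · intro h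
      exact absurd (Finset.mem_univ _) h
  refine ⟨r, h2, fun a w hw m => ?_⟩
  have h3 := bi_aco hd c hc hinj h0 h a w hw m
  simp only [← h2] at h3
  exact_mod_cast h3

end Pool.Agent.Q183.SKY
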