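import Pool.Agent.Q183.SKY.Growth

/-!
# Integral points of a box on a hyperplane with large coefficients
-/

set_option autoImplicit false

namespace Pool.Agent.Q183.SKY

open Finset Pool.Agent.H884R2.Sko Pool.Agent.W935.SK
open Pool.Agent.Helper259.AbsHt Pool.Agent.Y215.SK

theorem card_off {d : ℕ} (i j : Fin d) (hij : i ≠ j) :
    ((Finset.univ : Finset (Fin d)).filter (fun k => ¬ (k = i ∨ k = j))).card = d - 2 := by
  have h : (Finset.univ : Finset (Fin d)).filter (fun k => ¬ (k = i ∨ k = j)) =
      Finset.univ \ {i, j} := by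
    ext k
    simp
  rw [h, Finset.card_sdiff_of_subset (Finset.subset_univ _), Finset.card_univ, Fintype.card_fin,
    Finset.card_pair hij]

theorem card_fib {d : ℕ} (i j : Fin d) (hij : i ≠ j) (H M : ℕ) (hM : 1 ≤ M) (l : Fin d)
    (S : Finset (Fin d → ℤ)) (hS : S ⊆ box 0 H)
    (h1 : ∀ a ∈ S, ∀ b ∈ S, (∀ k, k ≠ i → k ≠ j → a k = b k) → (M : ℤ) ∣ a l - b l)
    (h2 : ∀ a ∈ S, ∀ b ∈ S, (∀ k, k ≠ i → k ≠ j → a k = b k) → a l = b l → a = b) :
    S.card ≤ (2 * H + 1) ^ (d - 2) * (2 * H / M + 1) := by
  classical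
  set T : Finset (Fin d → ℤ) := Fintype.piFinset (fun k => if k = i ∨ k = j then {0} else
    Finset.Icc (-(H : ℤ)) H) with hT
  have hTc : T.card = (2 * H + 1) ^ (d - 2) := by
    rw [hT, Fintype.card_piFinset]
    have e : ∀ k : Fin d, (if k = i ∨ k = j then ({0} : Finset ℤ) else
        Finset.Icc (-(H : ℤ)) H).card = if k = i ∨ k = j then 1 else 2 * H + 1 := by
      intro k
      split_ifs
      · simp
      · rw [Int.card_Icc]
        omega
    simp only [e]
    rw [Finset.prod_ite, Finset.prod_const_one, one_mul, Finset.prod_const, card_off i j hij]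
  have hMz : (0 : ℤ) < M := by exact_mod_cast hM
  have key := Finset.card_le_card_of_injOn (s := S) (t := T ×ˢ Finset.range (2 * H / M + 1))
    (fun a => ((fun k => if k = i ∨ k = j then 0 else a k), ((a l + H) / M).toNat)) ?_ ?_
  · rwa [Finset.card_product, hTc, Finset.card_range] at key
  · intro a ha
    have hb := mem_box.1 (hS ha)
    rw [Finset.mem_coe, Finset.mem_product]
    constructor
    · rw [hT, Fintype.mem_piFinset]
      intro k
      simp only
      split_ifs
      · simp
      · have := abs_le.1 (hb k)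
        simp only [Pi.zero_apply, sub_zero] at this
        rw [Finset.mem_Icc]
        exact this
    · simp only
      rw [Finset.mem_range]
      have := abs_le.1 (hb l)
      simp only [Pi.zero_apply, sub_zero] at this
      have e1 : (a l + H) / M ≤ ((2 * H : ℕ) : ℤ) / M :=
        Int.ediv_le_ediv hMz (by push_cast; linarith)
      have e2 : ((2 * H / M : ℕ) : ℤ) = ((2 * H : ℕ) : ℤ) / M := by push_cast; rfl
      rw [← e2] at e1
      generalize 2 * H / M = Q at e1 ⊢
      omega
  · intro a ha b hb hab
    simp only [Prod.mk.injEq] at hab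
    obtain ⟨hab1, hab2⟩ := hab
    have ha' := Finset.mem_coe.1 ha
    have hb' := Finset.mem_coe.1 hb
    have hag : ∀ k, k ≠ i → k ≠ j → a k = b k := by
      intro k hk1 hk2
      have := congrFun hab1 k
      rwa [if_neg (by tauto), if_neg (by tauto)] at this
    refine h2 a ha' b hb' hag ?_
    have h3 := h1 a ha' b hb' hag
    have hba := abs_le.1 ((mem_box.1 (hS ha')) l)
    have hbb := abs_le.1 ((mem_box.1 (hS hb')) l)
    simp only [Pi.zero_apply, sub_zero] at hba hbb
    have e1 : 0 ≤ (a l + H) / (M : ℤ) := Int.ediv_nonneg (by linarith) hMz.le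
    have e2 : 0 ≤ (b l + H) / (M : ℤ) := Int.ediv_nonneg (by linarith) hMz.le
    have e3 : (a l + H) / (M : ℤ) = (b l + H) / (M : ℤ) := by omega
    have e4 : (a l + H) % (M : ℤ) = (b l + H) % (M : ℤ) := by
      rw [Int.emod_eq_emod_iff_emod_sub_eq_zero]
      apply Int.emod_eq_zero_of_dvd
      have : a l + H - (b l + H) = a l - b l := by ring
      rwa [this]
    have e5 := Int.emod_add_mul_ediv (a l + H) M
    have e6 := Int.emod_add_mul_ediv (b l + H) M
    rw [e3, e4, e6] at e5
    linarith

theorem count_ne {d : ℕ} (r : Fin d → ℚ) (i j : Fin d) (hij : i ≠ j) (hj : r j ≠ 0) (H : ℕ) :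
    ((box (0 : Fin d → ℤ) H).filter (fun a => ∑ l, (a l : ℚ) * r l = 0)).card ≤
      (2 * H + 1) ^ (d - 2) * (2 * H / (max (r i / r j).num.natAbs (r i / r j).den) + 1) := by
  classical
  set q := r i / r j with hq
  have hqi : r i = q * r j := by rw [hq]; field_simp
  set S := (box (0 : Fin d → ℤ) H).filter (fun a => ∑ l, (a l : ℚ) * r l = 0) with hS
  have hSb : S ⊆ box 0 H := Finset.filter_subset _ _
  -- the relation between the two coordinates
  have key : ∀ a ∈ S, ∀ b ∈ S, (∀ k, k ≠ i → k ≠ j → a k = b k) →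
      (a i - b i) * q.num + (a j - b j) * (q.den : ℤ) = 0 := by
    intro a ha b hb hab
    have h1 := (Finset.mem_filter.1 ha).2
    have h2 := (Finset.mem_filter.1 hb).2
    have h3 : ∑ l, ((a l : ℚ) - b l) * r l = 0 := by
      have : ∑ l, ((a l : ℚ) - b l) * r l = ∑ l, (a l : ℚ) * r l - ∑ l, (b l : ℚ) * r l := by
        rw [← Finset.sum_sub_distrib]
        exact Finset.sum_congr rfl fun l _ => by ring
      rw [this, h1, h2, sub_zero]
    have h4 : ∑ l, ((a l : ℚ) - b l) * r l = ∑ l ∈ ({i, j} : Finset (Fin d)),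
        ((a l : ℚ) - b l) * r l := by
      symm
      apply Finset.sum_subset (Finset.subset_univ _)
      intro l _ hl
      simp only [Finset.mem_insert, Finset.mem_singleton, not_or] at hl
      rw [hab l hl.1 hl.2, sub_self, zero_mul]
    rw [h4, Finset.sum_pair hij, hqi] at h3
    have h5 : (((a i : ℚ) - b i) * q + ((a j : ℚ) - b j)) * r j = 0 := by
      rw [← h3]
      ring
    have h6 := (mul_eq_zero.1 h5).resolve_right hj
    have h7 : q = (q.num : ℚ) / (q.den : ℚ) := (Rat.num_div_den q).symm
    have hden : (q.den : ℚ) ≠ 0 := by exact_mod_cast q.den_ne_zero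
    have h8 : ((a i : ℚ) - b i) * (q.num : ℚ) + ((a j : ℚ) - b j) * (q.den : ℚ) = 0 := by
      have : ((a i : ℚ) - b i) * (q.num : ℚ) + ((a j : ℚ) - b j) * (q.den : ℚ) =
          (((a i : ℚ) - b i) * ((q.num : ℚ) / (q.den : ℚ)) + ((a j : ℚ) - b j)) * (q.den : ℚ) := by
        field_simp
      rw [this, ← h7, h6, zero_mul]
    exact_mod_cast h8
  have hcop : IsCoprime q.num (q.den : ℤ) := by
    rw [Int.isCoprime_iff_gcd_eq_one, Int.gcd_eq_natAbs, Int.natAbs_natCast]
    exact q.reduced
  have hden0 : (q.den : ℤ) ≠ 0 := by exact_mod_cast q.den_ne_zero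
  have hext : ∀ a b : Fin d → ℤ, (∀ k, k ≠ i → k ≠ j → a k = b k) → a i = b i → a j = b j →
      a = b := by
    intro a b h1 h2 h3
    funext k
    by_cases hk1 : k = i
    · rw [hk1, h2]
    · by_cases hk2 : k = j
      · rw [hk2, h3]
      · exact h1 k hk1 hk2
  rcases le_total q.num.natAbs q.den with hle | hle
  · rw [max_eq_right hle]
    refine card_fib i j hij H q.den q.den_pos i S hSb ?_ ?_
    · intro a ha b hb hab
      have h1 := key a ha b hb hab
      have h2 : (q.den : ℤ) ∣ (a i - b i) * q.num := ⟨-(a j - b j), by linarith⟩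
      exact hcop.symm.dvd_of_dvd_mul_right h2
    · intro a ha b hb hab hi
      have h1 := key a ha b hb hab
      rw [hi, sub_self, zero_mul, zero_add] at h1
      have h2 := (mul_eq_zero.1 h1).resolve_right hden0
      exact hext a b hab hi (by linarith)
  · rw [max_eq_left hle]
    have hn1 : 1 ≤ q.num.natAbs := le_trans q.den_pos hle
    have hn0 : q.num ≠ 0 := by
      intro h
      rw [h] at hn1
      simp at hn1
    refine card_fib i j hij H q.num.natAbs hn1 j S hSb ?_ ?_
    · intro a ha b hb hab
      have h1 := key a ha b hb hab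
      have h2 : q.num ∣ (a j - b j) * (q.den : ℤ) := ⟨-(a i - b i), by linarith⟩
      have h3 := hcop.dvd_of_dvd_mul_right h2
      rwa [Int.natAbs_dvd]
    · intro a ha b hb hab hi
      have h1 := key a ha b hb hab
      rw [hi, sub_self, zero_mul, add_zero] at h1
      have h2 := (mul_eq_zero.1 h1).resolve_right hn0
      exact hext a b hab (by linarith) hi

/-- one coordinate is determined by the others -/
theorem count_one {d : ℕ} (r : Fin d → ℚ) (j : Fin d) (hj : r j ≠ 0) (H : ℕ) :
    ((box (0 : Fin d → ℤ) H).filter (fun a => ∑ l, (a l : ℚ) * r l = 0)).card ≤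
      (2 * H + 1) ^ (d - 1) := by
  classical
  set T : Finset (Fin d → ℤ) := Fintype.piFinset (fun k => if k = j then {0} else
    Finset.Icc (-(H : ℤ)) H) with hT
  have hTc : T.card = (2 * H + 1) ^ (d - 1) := by
    rw [hT, Fintype.card_piFinset]
    have e : ∀ k : Fin d, (if k = j then ({0} : Finset ℤ) else
        Finset.Icc (-(H : ℤ)) H).card = if k = j then 1 else 2 * H + 1 := by
      intro k
      split_ifs
      · simp
      · rw [Int.card_Icc]
        omega
    simp only [e]
    rw [Finset.prod_ite, Finset.prod_const_one, one_mul, Finset.prod_const]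
    congr 1
    have h : (Finset.univ : Finset (Fin d)).filter (fun k => ¬ k = j) = Finset.univ \ {j} := by
      ext k
      simp
    rw [h, Finset.card_sdiff_of_subset (Finset.subset_univ _), Finset.card_univ, Fintype.card_fin,
      Finset.card_singleton]
  rw [← hTc]
  refine Finset.card_le_card_of_injOn (fun a k => if k = j then 0 else a k) ?_ ?_
  · intro a ha
    rw [Finset.mem_coe, Finset.mem_filter] at ha
    have hb := mem_box.1 ha.1
    rw [Finset.mem_coe, hT, Fintype.mem_piFinset]
    intro k
    simp only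
    split_ifs
    · simp
    · have := abs_le.1 (hb k)
      simp only [Pi.zero_apply, sub_zero] at this
      rw [Finset.mem_Icc]
      exact this
  · intro a ha b hb hab
    rw [Finset.mem_coe, Finset.mem_filter] at ha hb
    have hag : ∀ k, k ≠ j → a k = b k := by
      intro k hk
      have := congrFun hab k
      simp only at this
      rwa [if_neg hk, if_neg hk] at this
    have h3 : ∑ l, ((a l : ℚ) - b l) * r l = 0 := by
      have : ∑ l, ((a l : ℚ) - b l) * r l = ∑ l, (a l : ℚ) * r l - ∑ l, (b l : ℚ) * r l := by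
        rw [← Finset.sum_sub_distrib]
        exact Finset.sum_congr rfl fun l _ => by ring
      rw [this, ha.2, hb.2, sub_zero]
    rw [Finset.sum_eq_single j] at h3
    · have h4 := (mul_eq_zero.1 h3).resolve_right hj
      have h5 : a j = b j := by
        have : (a j : ℚ) = b j := by linarith
        exact_mod_cast this
      funext k
      by_cases hk : k = j
      · rw [hk, h5]
      · exact hag k hk
    · intro k _ hk
      rw [hag k hk, sub_self, zero_mul]
    · intro h
      exact absurd (Finset.mem_univ _) h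

/-- the number of zeros of a rational functional in the box in terms of its height -/
theorem count_height {d : ℕ} (hd : 2 ≤ d) (r : Fin d → ℚ) (i j : Fin d) (hj : r j ≠ 0) (H : ℕ)
    (z : ℝ) (hz0 : 0 < z) (hz : 1 / z ≤ Real.exp (h1 ((r i / r j : ℚ) : Qbar))) :
    (((box (0 : Fin d → ℤ) H).filter (fun a => ∑ l, (a l : ℚ) * r l = 0)).card : ℝ) ≤
      (2 * (H : ℝ) + 1) ^ (d - 2) * (2 * H * z + 1 + z) := by
  by_cases hij : i = j
  · subst hij
    rw [div_self hj] at hz
    have e1 : h1 (((1 : ℚ)) : Qbar) = 0 := by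
      rw [Rat.cast_one, h1_one]
    rw [e1, Real.exp_zero, div_le_one hz0] at hz
    have h2 := count_one r i hj H
    have h3 : (((box (0 : Fin d → ℤ) H).filter (fun a => ∑ l, (a l : ℚ) * r l = 0)).card : ℝ) ≤
        (2 * (H : ℝ) + 1) ^ (d - 1) := by exact_mod_cast h2
    refine h3.trans ?_
    have e2 : d - 1 = d - 2 + 1 := by omega
    rw [e2, pow_succ]
    apply mul_le_mul_of_nonneg_left _ (by positivity)
    have hH : (0 : ℝ) ≤ H := Nat.cast_nonneg H
    nlinarith
  · have h2 := count_ne r i j hij hj H
    set M := max (r i / r j).num.natAbs (r i / r j).den with hM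
    have hM1 : 1 ≤ M := le_trans (r i / r j).den_pos (le_max_right _ _)
    have hMr : (0 : ℝ) < M := by exact_mod_cast hM1
    rw [Pool.Agent.Y556.SK.h1_rat, ← hM, Real.exp_log hMr, div_le_iff₀ hz0] at hz
    have h3 : (((box (0 : Fin d → ℤ) H).filter (fun a => ∑ l, (a l : ℚ) * r l = 0)).card : ℝ) ≤
        (2 * (H : ℝ) + 1) ^ (d - 2) * (((2 * H / M : ℕ) : ℝ) + 1) := by exact_mod_cast h2
    refine h3.trans ?_
    apply mul_le_mul_of_nonneg_left _ (by positivity)
    have h4 : ((2 * H / M : ℕ) : ℝ) ≤ 2 * (H : ℝ) / M := by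
      have := Nat.cast_div_le (α := ℝ) (m := 2 * H) (n := M)
      push_cast at this
      exact this
    have h5 : 2 * (H : ℝ) / M ≤ 2 * H * z := by
      rw [div_le_iff₀ hMr]
      have hH : (0 : ℝ) ≤ 2 * H := by positivity
      nlinarith
    linarith

end Pool.Agent.Q183.SKY
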