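import Pool.Agent.Q183.SKY.Unif3

/-!
# Almost all initial values with a zero
-/

set_option autoImplicit false

namespace Pool.Agent.Q183.SKY

open Polynomial Finset Pool.Agent.H884R2.Sko Pool.Agent.W935.SK Pool.Agent.H692R2.USS
open Pool.Agent.Helper259.AbsHt Pool.Agent.Y215.SK Pool.Agent.Y556.SK
open scoped Classical

/-- two different hyperplanes -/
theorem pair {d : ℕ} (hd : 2 ≤ d) (c : Fin d → ℤ) (hc : c ⟨d - 1, by omega⟩ ≠ 0)
    (hsq : Squarefree ((charPoly c).map (Int.castRingHom ℚ)))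
    (hnd : ∀ b : ℕ, 1 ≤ b → ∀ r : ℤ, ¬ charPoly c ∣ X ^ b - C r) (m m' : ℤ) (hlt : m < m')
    (H : ℕ) : (hyp c m H ∩ hyp c m' H).card ≤ (2 * H + 1) ^ (d - 2) := by
  obtain ⟨Λ, hinj, h0, hprod, hrel⟩ := exists_lam (by omega) c hc hsq
  obtain ⟨r, hr1, hr2⟩ := aco_rat (by omega) c hc hinj h0 hrel
  have hpow : ∀ k m, Λ k ^ m = ∑ l : Fin d, Λ k ^ (l : ℕ) * ((r l m : ℚ) : Qbar) := by
    intro k m
    rw [← aco_root hinj k m]
    exact Finset.sum_congr rfl fun l _ => by rw [hr1]
  -- a nonzero minor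
  obtain ⟨i, j, hij⟩ : ∃ i j, r i m * r j m' - r j m * r i m' ≠ 0 := by
    by_contra hcon
    push Not at hcon
    have hex : ∃ j, r j m ≠ 0 := by
      by_contra hcon2
      push Not at hcon2
      have h2 := hpow ⟨0, by omega⟩ m
      simp only [hcon2] at h2
      simp at h2
      exact (zpow_ne_zero m (h0 _)) h2
    obtain ⟨j, hj⟩ := hex
    have hjQ : ((r j m : ℚ) : Qbar) ≠ 0 := by exact_mod_cast hj
    obtain ⟨ρ, hρ⟩ : ∃ ρ : Qbar, ρ = ((r j m' / r j m : ℚ) : Qbar) := ⟨_, rfl⟩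
    have h2 : ∀ l, ((r l m' : ℚ) : Qbar) = ρ * ((r l m : ℚ) : Qbar) := by
      intro l
      have h3 := hcon l j
      have h4 : r l m' = r j m' / r j m * r l m := by
        field_simp
        linarith
      rw [h4, hρ]
      push_cast
      ring
    have h3 : ∀ k, Λ k ^ m' = ρ * Λ k ^ m := by
      intro k
      rw [hpow k m', hpow k m, Finset.mul_sum]
      refine Finset.sum_congr rfl fun l _ => ?_
      rw [h2]
      ring
    obtain ⟨L, hL⟩ : ∃ L : ℕ, m' = m + L ∧ 1 ≤ L := ⟨(m' - m).toNat, by omega, by omega⟩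
    have h4 : ∀ k, Λ k ^ L = ρ := by
      intro k
      have h5 := h3 k
      rw [hL.1, zpow_add₀ (h0 k), zpow_natCast, mul_comm] at h5
      exact mul_right_cancel₀ (zpow_ne_zero m (h0 k)) h5
    obtain ⟨r', hr'⟩ := dvd_of_roots (by omega) c hinj hprod L (fun s t => by rw [h4, h4])
    exact hnd L hL.2 r' hr'
  have hne : i ≠ j := by
    intro h
    rw [h] at hij
    exact hij (sub_self _)
  have hlin : ∀ a ∈ hyp c m H ∩ hyp c m' H, ∑ l, (a l : ℚ) * r l m = 0 ∧
      ∑ l, (a l : ℚ) * r l m' = 0 := by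
    intro a ha
    rw [Finset.mem_inter, hyp_eq (by omega) c hc r hr2, hyp_eq (by omega) c hc r hr2,
      Finset.mem_filter, Finset.mem_filter] at ha
    exact ⟨ha.1.2, ha.2.2⟩
  have key : ∀ a ∈ hyp c m H ∩ hyp c m' H, ∀ b ∈ hyp c m H ∩ hyp c m' H,
      (∀ k, k ≠ i → k ≠ j → a k = b k) → a = b := by
    intro a ha b hb hab
    have e : ∀ m, ∑ l, (a l : ℚ) * r l m = 0 → ∑ l, (b l : ℚ) * r l m = 0 →
        ((a i : ℚ) - b i) * r i m + ((a j : ℚ) - b j) * r j m = 0 := by
      intro m h1 h2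
      have h3 : ∑ l, ((a l : ℚ) - b l) * r l m = 0 := by
        have : ∑ l, ((a l : ℚ) - b l) * r l m =
            ∑ l, (a l : ℚ) * r l m - ∑ l, (b l : ℚ) * r l m := by
          rw [← Finset.sum_sub_distrib]
          exact Finset.sum_congr rfl fun l _ => by ring
        rw [this, h1, h2, sub_zero]
      have h4 : ∑ l, ((a l : ℚ) - b l) * r l m = ∑ l ∈ ({i, j} : Finset (Fin d)),
          ((a l : ℚ) - b l) * r l m := by
        symm
        apply Finset.sum_subset (Finset.subset_univ _)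
        intro l _ hl
        simp only [Finset.mem_insert, Finset.mem_singleton, not_or] at hl
        rw [hab l hl.1 hl.2, sub_self, zero_mul]
      rwa [h4, Finset.sum_pair hne] at h3
    have e1 := e m (hlin a ha).1 (hlin b hb).1
    have e2 := e m' (hlin a ha).2 (hlin b hb).2
    have e3 : ((a i : ℚ) - b i) * (r i m * r j m' - r j m * r i m') = 0 := by
      linear_combination r j m' * e1 - r j m * e2
    have e4 : ((a j : ℚ) - b j) * (r i m * r j m' - r j m * r i m') = 0 := by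
      linear_combination r i m * e2 - r i m' * e1
    have e5 := (mul_eq_zero.1 e3).resolve_right hij
    have e6 := (mul_eq_zero.1 e4).resolve_right hij
    have e7 : a i = b i := by
      have : (a i : ℚ) = b i := by linarith
      exact_mod_cast this
    have e8 : a j = b j := by
      have : (a j : ℚ) = b j := by linarith
      exact_mod_cast this
    funext k
    by_cases hk1 : k = i
    · rw [hk1, e7]
    · by_cases hk2 : k = j
      · rw [hk2, e8]
      · exact hab k hk1 hk2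
  have h2 := card_fib i j hne H (2 * H + 1) (by omega) i (hyp c m H ∩ hyp c m' H)
    (fun a ha => by
      rw [Finset.mem_inter] at ha
      unfold hyp at ha
      exact (Finset.mem_filter.1 ha.1).1)
    (fun a ha b hb hab => by rw [key a ha b hb hab, sub_self]; exact dvd_zero _)
    (fun a ha b hb hab _ => key a ha b hb hab)
  rwa [Nat.div_eq_of_lt (by omega), zero_add, mul_one] at h2

theorem low {d : ℕ} (hd : 2 ≤ d) (H : ℕ) :
    (2 * H + 1) ^ (d - 1) ≤ ((box (0 : Fin d → ℤ) H).filter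
      (fun a => a ⟨0, by omega⟩ = 0)).card := by
  set T : Finset (Fin d → ℤ) := Fintype.piFinset (fun k => if k = ⟨0, by omega⟩ then {0} else
    Finset.Icc (-(H : ℤ)) H) with hT
  have hTc : T.card = (2 * H + 1) ^ (d - 1) := by
    rw [hT, Fintype.card_piFinset]
    have e : ∀ k : Fin d, (if k = ⟨0, by omega⟩ then ({0} : Finset ℤ) else
        Finset.Icc (-(H : ℤ)) H).card = if k = ⟨0, by omega⟩ then 1 else 2 * H + 1 := by
      intro k
      split_ifs
      · simp
      · rw [Int.card_Icc]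
        omega
    simp only [e]
    rw [Finset.prod_ite, Finset.prod_const_one, one_mul, Finset.prod_const]
    congr 1
    have h : (Finset.univ : Finset (Fin d)).filter (fun k => ¬ k = ⟨0, by omega⟩) =
        Finset.univ \ {⟨0, by omega⟩} := by
      ext k
      simp
    rw [h, Finset.card_sdiff_of_subset (Finset.subset_univ _), Finset.card_univ, Fintype.card_fin,
      Finset.card_singleton]
  rw [← hTc]
  refine Finset.card_le_card fun a ha => ?_
  rw [hT, Fintype.mem_piFinset] at ha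
  rw [Finset.mem_filter, mem_box]
  constructor
  · intro i
    have h := ha i
    simp only [Pi.zero_apply, sub_zero]
    split_ifs at h
    · rw [Finset.mem_singleton] at h
      rw [h]
      simp
    · rw [Finset.mem_Icc] at h
      exact abs_le.2 h
  · have h := ha ⟨0, by omega⟩
    rw [if_pos rfl, Finset.mem_singleton] at h
    exact h

theorem logpow (M δ : ℝ) (hM : 0 ≤ M) (hδ : 0 < δ) : ∃ H₁ : ℕ, ∀ H : ℕ, H₁ ≤ H →
    M * (1 + Real.log H) ^ 2 ≤ (H : ℝ) ^ δ := by
  obtain ⟨H₁, h⟩ := ev2 (M * (1 + 4 / δ) ^ 2) (δ / 2) (by positivity)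
  refine ⟨H₁ + 1, fun H hH => ?_⟩
  have hH1 : (1 : ℝ) ≤ H := by
    have : 1 ≤ H := by omega
    exact_mod_cast this
  have hH0 : (0 : ℝ) < H := by linarith
  have h1 : Real.log H ≤ (H : ℝ) ^ (δ / 4) / (δ / 4) := Real.log_le_rpow_div hH0.le (by positivity)
  have h2 : 1 ≤ (H : ℝ) ^ (δ / 4) := Real.one_le_rpow hH1 (by positivity)
  have h3 : 1 + Real.log H ≤ (1 + 4 / δ) * (H : ℝ) ^ (δ / 4) := by
    have e : (1 + 4 / δ) * (H : ℝ) ^ (δ / 4) = (H : ℝ) ^ (δ / 4) + (H : ℝ) ^ (δ / 4) / (δ / 4) := by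
      field_simp
    rw [e]
    linarith
  have h4 : 0 ≤ Real.log H := Real.log_nonneg hH1
  have h5 := h H (by omega)
  have h6 : ((H : ℝ) ^ (δ / 4)) ^ 2 = (H : ℝ) ^ (δ / 2) := by
    rw [← Real.rpow_natCast, ← Real.rpow_mul hH0.le]
    congr 1
    push_cast
    ring
  have h7 : (H : ℝ) ^ (δ / 2) * (H : ℝ) ^ (δ / 2) = (H : ℝ) ^ δ := by
    rw [← Real.rpow_add hH0]
    congr 1
    ring
  calc M * (1 + Real.log H) ^ 2 ≤ M * ((1 + 4 / δ) * (H : ℝ) ^ (δ / 4)) ^ 2 := by
        apply mul_le_mul_of_nonneg_left _ hM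
        exact pow_le_pow_left₀ (by linarith) h3 2
    _ = M * (1 + 4 / δ) ^ 2 * (H : ℝ) ^ (δ / 2) := by
        rw [mul_pow, h6]
        ring
    _ ≤ (H : ℝ) ^ (δ / 2) * (H : ℝ) ^ (δ / 2) :=
        mul_le_mul_of_nonneg_right h5 (Real.rpow_nonneg hH0.le _)
    _ = _ := h7

end Pool.Agent.Q183.SKY
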