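import Pool.Agent.Q183.SKY.Bi

/-!
# The hyperplanes `w m = 0` have exponentially growing height
-/

set_option autoImplicit false

namespace Pool.Agent.Q183.SKY

open Polynomial Finset Pool.Agent.H884R2.Sko Pool.Agent.W935.SK
open Pool.Agent.Helper259.AbsHt Pool.Agent.Y215.SK Pool.Agent.Y556.SK

/-- if the roots have equal powers, the characteristic polynomial divides a binomial -/
theorem dvd_of_roots {d : ℕ} (hd : 1 ≤ d) (c : Fin d → ℤ) {Λ : Fin d → Qbar}
    (hinj : Function.Injective Λ)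
    (hprod : (charPoly c).map (Int.castRingHom Qbar) = ∏ i, (X - C (Λ i)))
    (L : ℕ) (hall : ∀ s t, Λ s ^ L = Λ t ^ L) : ∃ r : ℤ, charPoly c ∣ X ^ L - C r := by
  have hm : (charPoly c).Monic := by
    rw [charPoly_eq]
    exact chi_monic _
  have hdeg : (charPoly c).natDegree = d := by
    rw [charPoly_eq]
    exact chi_natDegree _
  obtain ⟨R, hR⟩ : ∃ R : ℤ[X], R = X ^ L %ₘ charPoly c := ⟨_, rfl⟩
  have h1 : R + charPoly c * (X ^ L /ₘ charPoly c) = X ^ L := by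
    rw [hR]
    exact modByMonic_add_div _ _
  have hP1 : charPoly c ≠ 1 := by
    intro h
    rw [h, natDegree_one] at hdeg
    omega
  have h2 : R.natDegree < d := by
    rw [hR]
    exact lt_of_lt_of_eq (natDegree_modByMonic_lt _ hm hP1) hdeg
  have h3 : ∀ s, (R.map (Int.castRingHom Qbar)).eval (Λ s) = Λ s ^ L := by
    intro s
    have e1 : ((charPoly c).map (Int.castRingHom Qbar)).eval (Λ s) = 0 := by
      rw [hprod, eval_prod]
      exact Finset.prod_eq_zero (Finset.mem_univ s) (by simp)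
    have e2 := congrArg (fun f : ℤ[X] => (f.map (Int.castRingHom Qbar)).eval (Λ s)) h1
    simp only [Polynomial.map_add, Polynomial.map_mul, eval_add, eval_mul, e1, zero_mul,
      add_zero, Polynomial.map_pow, map_X, eval_pow, eval_X] at e2
    exact e2
  have h4 : R.map (Int.castRingHom Qbar) - C (Λ ⟨0, by omega⟩ ^ L) = 0 := by
    apply Polynomial.eq_zero_of_natDegree_lt_card_of_eval_eq_zero _ hinj
    · intro i
      rw [eval_sub, h3, eval_C, hall i ⟨0, by omega⟩, sub_self]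
    · rw [Fintype.card_fin]
      refine lt_of_le_of_lt (natDegree_sub_le _ _) ?_
      rw [natDegree_C]
      refine max_lt (lt_of_le_of_lt (natDegree_map_le) h2) (by omega)
  have h5 : R = C (R.coeff 0) := by
    ext n
    rcases Nat.eq_zero_or_pos n with rfl | hn
    · simp
    · rw [coeff_C, if_neg (by omega)]
      have e1 := congrArg (fun f : Qbar[X] => f.coeff n) h4
      simp only [coeff_sub, coeff_map, coeff_C, coeff_zero] at e1
      rw [if_neg (by omega), sub_zero] at e1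
      have e2 : ((R.coeff n : ℤ) : Qbar) = 0 := by simpa using e1
      exact_mod_cast e2
  refine ⟨R.coeff 0, X ^ L /ₘ charPoly c, ?_⟩
  rw [← h5]
  linear_combination -h1

theorem exists_ratio {d : ℕ} (hd : 1 ≤ d) (c : Fin d → ℤ) {Λ : Fin d → Qbar}
    (hinj : Function.Injective Λ) (h0 : ∀ i, Λ i ≠ 0)
    (hprod : (charPoly c).map (Int.castRingHom Qbar) = ∏ i, (X - C (Λ i)))
    (hnd : ∀ b : ℕ, 1 ≤ b → ∀ r : ℤ, ¬ charPoly c ∣ X ^ b - C r) :
    ∃ s t, 0 < h1 (Λ s / Λ t) := by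
  by_contra hcon
  push Not at hcon
  obtain ⟨L, hL1, hL⟩ := tors (∑ s, ∑ t, dg (Λ s / Λ t))
  obtain ⟨r, hr⟩ := dvd_of_roots hd c hinj hprod L (by
    intro s t
    have h2 : dg (Λ s / Λ t) ≤ ∑ s, ∑ t, dg (Λ s / Λ t) :=
      (Finset.single_le_sum (f := fun t => dg (Λ s / Λ t)) (fun _ _ => Nat.zero_le _)
        (Finset.mem_univ t)).trans
        (Finset.single_le_sum (f := fun s => ∑ t, dg (Λ s / Λ t)) (fun _ _ => Nat.zero_le _)
        (Finset.mem_univ s))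
    have h3 := hL (Λ s / Λ t) (div_ne_zero (h0 s) (h0 t)) h2
      (le_antisymm (hcon s t) (h1_nonneg _))
    rw [div_pow, div_eq_one_iff_eq (pow_ne_zero _ (h0 t))] at h3
    exact h3)
  exact hnd L hL1 r hr

theorem h1_lin {d : ℕ} (x y : Fin d → Qbar) :
    h1 (∑ j, x j * y j) ≤ d * Real.log 2 + ∑ j, (h1 (x j) + h1 (y j)) := by
  refine (h1_sum_le _ _).trans ?_
  rw [Finset.card_univ, Fintype.card_fin]
  have := Finset.sum_le_sum (s := (Finset.univ : Finset (Fin d))) fun j _ => h1_mul_le (x j) (y j)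
  linarith

theorem growth {d : ℕ} (hd : 1 ≤ d) (c : Fin d → ℤ) {Λ : Fin d → Qbar}
    (hinj : Function.Injective Λ) (h0 : ∀ i, Λ i ≠ 0)
    (hprod : (charPoly c).map (Int.castRingHom Qbar) = ∏ i, (X - C (Λ i)))
    (hnd : ∀ b : ℕ, 1 ≤ b → ∀ r : ℤ, ¬ charPoly c ∣ X ^ b - C r)
    (r : Fin d → ℤ → ℚ) (hr : ∀ j m, ((r j m : ℚ) : Qbar) = Aco Λ j m) :
    ∃ κ A : ℝ, 0 < κ ∧ 0 ≤ A ∧ ∀ m : ℤ, ∃ i j : Fin d, r j m ≠ 0 ∧
      κ * |(m : ℝ)| - A ≤ h1 ((r i m / r j m : ℚ) : Qbar) := by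
  obtain ⟨s, t, hst⟩ := exists_ratio hd c hinj h0 hprod hnd
  have hd0 : (0 : ℝ) < d := by exact_mod_cast hd
  obtain ⟨T, hT⟩ : ∃ T : ℝ, T = ∑ k, ∑ j : Fin d, h1 (Λ k ^ (j : ℕ)) := ⟨_, rfl⟩
  have hT0 : 0 ≤ T := by
    rw [hT]
    exact Finset.sum_nonneg fun _ _ => Finset.sum_nonneg fun _ _ => h1_nonneg _
  have hTk : ∀ k, ∑ j : Fin d, h1 (Λ k ^ (j : ℕ)) ≤ T := by
    intro k
    rw [hT]
    exact Finset.single_le_sum (f := fun k => ∑ j : Fin d, h1 (Λ k ^ (j : ℕ)))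
      (fun _ _ => Finset.sum_nonneg fun _ _ => h1_nonneg _) (Finset.mem_univ k)
  have hl2 : 0 ≤ Real.log 2 := Real.log_nonneg (by norm_num)
  refine ⟨h1 (Λ s / Λ t) / (2 * d), (2 * (d * Real.log 2) + 2 * T) / (2 * d), by positivity,
    by positivity, fun m => ?_⟩
  have hex : ∃ j, r j m ≠ 0 := by
    by_contra hcon
    push Not at hcon
    have h2 := aco_root hinj s m
    simp only [← hr, hcon] at h2
    simp at h2
    exact (zpow_ne_zero m (h0 s)) h2.symm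
  obtain ⟨j, hj⟩ := hex
  have hjQ : ((r j m : ℚ) : Qbar) ≠ 0 := by exact_mod_cast hj
  obtain ⟨i, _, hi⟩ := Finset.exists_max_image (Finset.univ : Finset (Fin d))
    (fun i => h1 ((r i m / r j m : ℚ) : Qbar)) ⟨j, Finset.mem_univ _⟩
  refine ⟨i, j, hj, ?_⟩
  have hk : ∀ k, h1 (∑ l : Fin d, Λ k ^ (l : ℕ) * ((r l m / r j m : ℚ) : Qbar)) ≤
      d * Real.log 2 + T + d * h1 ((r i m / r j m : ℚ) : Qbar) := by
    intro k
    refine (h1_lin _ _).trans ?_
    rw [Finset.sum_add_distrib]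
    have e1 := Finset.sum_le_sum (s := (Finset.univ : Finset (Fin d))) fun l hl => hi l hl
    rw [Finset.sum_const, Finset.card_univ, Fintype.card_fin, nsmul_eq_mul] at e1
    have e2 := hTk k
    linarith
  have hke : ∀ k, ∑ l : Fin d, Λ k ^ (l : ℕ) * ((r l m / r j m : ℚ) : Qbar) =
      Λ k ^ m / ((r j m : ℚ) : Qbar) := by
    intro k
    rw [← aco_root hinj k m, Finset.sum_div]
    refine Finset.sum_congr rfl fun l _ => ?_
    rw [← hr]
    push_cast
    ring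
  have e3 : (Λ s / Λ t) ^ m = (∑ l : Fin d, Λ s ^ (l : ℕ) * ((r l m / r j m : ℚ) : Qbar)) /
      (∑ l : Fin d, Λ t ^ (l : ℕ) * ((r l m / r j m : ℚ) : Qbar)) := by
    rw [hke, hke, div_zpow]
    have := zpow_ne_zero m (h0 t)
    field_simp
  have e4 := h1_zpow (Λ s / Λ t) m
  rw [e3] at e4
  have e5 := h1_div_le (∑ l : Fin d, Λ s ^ (l : ℕ) * ((r l m / r j m : ℚ) : Qbar))
      (∑ l : Fin d, Λ t ^ (l : ℕ) * ((r l m / r j m : ℚ) : Qbar))
  have e6 := hk s
  have e7 := hk t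
  have e8 : |(m : ℝ)| * h1 (Λ s / Λ t) ≤
      2 * (d * Real.log 2) + 2 * T + 2 * d * h1 ((r i m / r j m : ℚ) : Qbar) := by linarith
  have e9 : h1 (Λ s / Λ t) / (2 * d) * |(m : ℝ)| - (2 * (d * Real.log 2) + 2 * T) / (2 * d) =
      (|(m : ℝ)| * h1 (Λ s / Λ t) - (2 * (d * Real.log 2) + 2 * T)) / (2 * d) := by ring
  rw [e9, div_le_iff₀ (by positivity)]
  linarith

end Pool.Agent.Q183.SKY
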