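import Pool.Agent.Q183.SKY.Fin

/-!
# Almost all initial values with a zero (end)
-/

set_option autoImplicit false

namespace Pool.Agent.Q183.SKY

open Polynomial Finset Pool.Agent.H884R2.Sko Pool.Agent.W935.SK Pool.Agent.H692R2.USS
open scoped Classical

theorem main {d : ℕ} (hd : 2 ≤ d) (c : Fin d → ℤ) (hc : c ⟨d - 1, by omega⟩ ≠ 0)
    (hsq : Squarefree ((charPoly c).map (Int.castRingHom ℚ)))
    (hnd : ∀ b : ℕ, 1 ≤ b → ∀ r : ℤ, ¬ charPoly c ∣ X ^ b - C r) :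
    ∃ α δ : ℝ, 0 < α ∧ 0 < δ ∧ ∃ H₀ : ℕ, ∀ H : ℕ, H₀ ≤ H →
      (((box (0 : Fin d → ℤ) H).filter (fun a => ∃ w, IsBi c a w ∧ (∃ m : ℤ, w m = 0) ∧
        ¬ ∃ m : ℤ, (∀ n : ℤ, w n = 0 ↔ n = m) ∧ HasCert c a m (Real.log H ^ α))).card : ℝ) ≤
        (H : ℝ) ^ (d - 1) * (H : ℝ) ^ (-δ) := by
  obtain ⟨α, δ₀, η, hα, hδ₀, hη, H₁, hunif⟩ := unif hd c hc hsq hnd
  obtain ⟨C, θ, hC, hθ0, hθ1, htail⟩ := tail hd c hc hsq hnd
  have hlθ : Real.log θ < 0 := Real.log_neg hθ0 hθ1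
  obtain ⟨σ, hσ⟩ : ∃ σ : ℝ, σ = η * (-Real.log θ) := ⟨_, rfl⟩
  have hσ0 : 0 < σ := by rw [hσ]; exact mul_pos hη (by linarith)
  obtain ⟨δ, hδ⟩ : ∃ δ : ℝ, δ = min σ (min δ₀ 1) / 2 := ⟨_, rfl⟩
  have hδ0 : 0 < δ := by rw [hδ]; positivity
  have hδσ : 2 * δ ≤ σ := by
    rw [hδ]
    linarith [min_le_left σ (min δ₀ 1)]
  have hδδ₀ : 2 * δ ≤ δ₀ := by
    rw [hδ]
    linarith [min_le_right σ (min δ₀ 1), min_le_left δ₀ 1]
  have hδ1 : 2 * δ ≤ 1 := by
    rw [hδ]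
    linarith [min_le_right σ (min δ₀ 1), min_le_right δ₀ 1]
  obtain ⟨M, hM⟩ : ∃ M : ℝ, M = C + (2 * η + 1) + 3 ^ (d - 2) * (2 * η + 1) ^ 2 := ⟨_, rfl⟩
  have hM0 : 0 ≤ M := by rw [hM]; positivity
  obtain ⟨H₂, hlp⟩ := logpow M δ hM0 hδ0
  refine ⟨α, δ, hα, hδ0, H₁ + H₂ + 2, fun H hH => ?_⟩
  have hH2 : 2 ≤ H := by omega
  have hHr : (2 : ℝ) ≤ H := by exact_mod_cast hH2
  have hH0 : (0 : ℝ) < H := by linarith
  have hH1 : (1 : ℝ) ≤ H := by linarith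
  have hlog0 : 0 ≤ Real.log H := Real.log_nonneg hH1
  obtain ⟨K, hK⟩ : ∃ K : ℕ, K = ⌊η * Real.log H⌋₊ := ⟨_, rfl⟩
  have hK1 : (K : ℝ) ≤ η * Real.log H := by
    rw [hK]
    exact Nat.floor_le (by positivity)
  have hK2 : η * Real.log H < K + 1 := by
    rw [hK]
    exact Nat.lt_floor_add_one _
  obtain ⟨I, hI⟩ : ∃ I : Finset ℤ, I = Finset.Icc (-(K : ℤ)) K := ⟨_, rfl⟩
  have hIc : I.card = 2 * K + 1 := by
    rw [hI, Int.card_Icc]
    omega
  have hsub : (box (0 : Fin d → ℤ) H).filter (fun a => ∃ w, IsBi c a w ∧ (∃ m : ℤ, w m = 0) ∧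
        ¬ ∃ m : ℤ, (∀ n : ℤ, w n = 0 ↔ n = m) ∧ HasCert c a m (Real.log H ^ α)) ⊆
      ((box (0 : Fin d → ℤ) H).filter
        (fun a => ∃ w, IsBi c a w ∧ ∃ m : ℤ, ((K + 1 : ℕ) : ℤ) ≤ |m| ∧ w m = 0)) ∪
      (I.biUnion (fun m => (hyp c m H).filter (fun a => ¬ HasCert c a m (Real.log H ^ α))) ∪
      ((I ×ˢ I).filter (fun p => p.1 < p.2)).biUnion
        (fun p => hyp c p.1 H ∩ hyp c p.2 H)) := by
    intro a ha
    rw [Finset.mem_filter] at ha
    obtain ⟨hab, w, hw, ⟨m, hm⟩, hno⟩ := ha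
    by_contra hcon
    rw [Finset.mem_union, Finset.mem_union, not_or, not_or] at hcon
    obtain ⟨h1, h2, h3⟩ := hcon
    have hsmall : ∀ n : ℤ, w n = 0 → n ∈ I := by
      intro n hn
      rw [hI, Finset.mem_Icc]
      by_contra hcon
      apply h1
      rw [Finset.mem_filter]
      refine ⟨hab, w, hw, n, ?_, hn⟩
      push_cast
      have : ¬ |n| ≤ K := fun h => hcon (abs_le.1 h)
      omega
    have hhyp : ∀ n : ℤ, w n = 0 → a ∈ hyp c n H := by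
      intro n hn
      unfold hyp
      rw [Finset.mem_filter]
      exact ⟨hab, w, hw, hn⟩
    have huniq : ∀ n n' : ℤ, w n = 0 → w n' = 0 → ¬ n < n' := by
      intro n n' hn hn' hlt
      apply h3
      rw [Finset.mem_biUnion]
      refine ⟨(n, n'), ?_, ?_⟩
      · rw [Finset.mem_filter, Finset.mem_product]
        exact ⟨⟨hsmall n hn, hsmall n' hn'⟩, hlt⟩
      · rw [Finset.mem_inter]
        exact ⟨hhyp n hn, hhyp n' hn'⟩
    apply hno
    refine ⟨m, fun n => ⟨fun hn => ?_, fun hn => by rw [hn]; exact hm⟩, ?_⟩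
    · have e1 := huniq n m hn hm
      have e2 := huniq m n hm hn
      omega
    · by_contra hcert
      apply h2
      rw [Finset.mem_biUnion]
      refine ⟨m, hsmall m hm, ?_⟩
      rw [Finset.mem_filter]
      exact ⟨hhyp m hm, hcert⟩
  have hcard := (Finset.card_le_card hsub).trans ((Finset.card_union_le _ _).trans
    (Nat.add_le_add_left ((Finset.card_union_le _ _).trans
      (Nat.add_le_add Finset.card_biUnion_le Finset.card_biUnion_le)) _))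
  have hcardR : (((box (0 : Fin d → ℤ) H).filter (fun a => ∃ w, IsBi c a w ∧ (∃ m : ℤ, w m = 0) ∧
        ¬ ∃ m : ℤ, (∀ n : ℤ, w n = 0 ↔ n = m) ∧ HasCert c a m (Real.log H ^ α))).card : ℝ) ≤
      (((box (0 : Fin d → ℤ) H).filter
        (fun a => ∃ w, IsBi c a w ∧ ∃ m : ℤ, ((K + 1 : ℕ) : ℤ) ≤ |m| ∧ w m = 0)).card : ℝ) +
      (∑ m ∈ I, (((hyp c m H).filter (fun a => ¬ HasCert c a m (Real.log H ^ α))).card : ℝ) +
      ∑ p ∈ (I ×ˢ I).filter (fun p => p.1 < p.2), ((hyp c p.1 H ∩ hyp c p.2 H).card : ℝ)) := by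
    exact_mod_cast hcard
  refine hcardR.trans ?_
  have hP0 : (0 : ℝ) < (H : ℝ) ^ (d - 1) := by positivity
  -- the tail
  have t1 : θ ^ (K + 1) ≤ (H : ℝ) ^ (-(2 * δ)) := by
    have e1 : θ ^ (K + 1) = Real.exp (((K : ℝ) + 1) * Real.log θ) := by
      rw [← Real.exp_log hθ0, ← Real.exp_nat_mul, Real.log_exp]
      push_cast
      rfl
    rw [e1, Real.rpow_def_of_pos hH0]
    apply Real.exp_le_exp.2
    have e2 : (η * Real.log H) * (-Real.log θ) ≤ ((K : ℝ) + 1) * (-Real.log θ) :=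
      mul_le_mul_of_nonneg_right hK2.le (by linarith)
    have e3 : 2 * δ * Real.log H ≤ σ * Real.log H := mul_le_mul_of_nonneg_right hδσ hlog0
    have e4 : σ * Real.log H = (η * Real.log H) * (-Real.log θ) := by rw [hσ]; ring
    linarith
  have hHd : (H : ℝ) ^ (d - 2) ≤ (H : ℝ) ^ (d - 1) * (H : ℝ) ^ (-(2 * δ)) := by
    have e1 : (H : ℝ) ^ (d - 1) = (H : ℝ) ^ (d - 2) * H := by
      rw [← pow_succ]
      congr 1
      omega
    have e2 : (H : ℝ) ^ (-(1 : ℝ)) ≤ (H : ℝ) ^ (-(2 * δ)) :=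
      Real.rpow_le_rpow_of_exponent_le hH1 (by linarith)
    rw [Real.rpow_neg_one] at e2
    have e3 : (H : ℝ) ^ (d - 2) = (H : ℝ) ^ (d - 1) * (H : ℝ)⁻¹ := by
      rw [e1]
      field_simp
    rw [e3]
    exact mul_le_mul_of_nonneg_left e2 hP0.le
  have hQ0 : 0 < (H : ℝ) ^ (-(2 * δ)) := Real.rpow_pos_of_pos hH0 _
  obtain ⟨Q, hQ⟩ : ∃ Q : ℝ, Q = (H : ℝ) ^ (d - 1) * (H : ℝ) ^ (-(2 * δ)) := ⟨_, rfl⟩
  have hQp : 0 < Q := by rw [hQ]; positivity
  rw [← hQ] at hHd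
  have p1 : (((box (0 : Fin d → ℤ) H).filter
        (fun a => ∃ w, IsBi c a w ∧ ∃ m : ℤ, ((K + 1 : ℕ) : ℤ) ≤ |m| ∧ w m = 0)).card : ℝ) ≤
      Q * (C * (1 + Real.log H)) := by
    refine (htail H hH2 (K + 1)).trans ?_
    have e1 : θ ^ (K + 1) * (H : ℝ) ^ (d - 1) ≤ Q := by
      rw [hQ, mul_comm]
      exact mul_le_mul_of_nonneg_left t1 hP0.le
    have e2 : (H : ℝ) ^ (d - 2) * Real.log H ≤ Q * Real.log H :=
      mul_le_mul_of_nonneg_right hHd hlog0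
    have e3 : Q * (C * (1 + Real.log H)) = C * (Q + Q * Real.log H) := by ring
    rw [e3]
    exact mul_le_mul_of_nonneg_left (by linarith) hC.le
  have hKl : (2 * (K : ℝ) + 1) ≤ (2 * η + 1) * (1 + Real.log H) := by
    have : (2 * η + 1) * (1 + Real.log H) = 2 * (η * Real.log H) + 1 + (2 * η + Real.log H) := by
      ring
    rw [this]
    linarith
  have p2 : ∑ m ∈ I, (((hyp c m H).filter
      (fun a => ¬ HasCert c a m (Real.log H ^ α))).card : ℝ) ≤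
      Q * ((2 * η + 1) * (1 + Real.log H)) := by
    have e1 : ∀ m ∈ I, (((hyp c m H).filter
        (fun a => ¬ HasCert c a m (Real.log H ^ α))).card : ℝ) ≤ Q := by
      intro m hm
      rw [hI, Finset.mem_Icc] at hm
      have e2 := hunif H (by omega) m (by
        refine le_trans ?_ hK1
        have : m.natAbs ≤ K := by omega
        exact_mod_cast this)
      refine e2.trans ?_
      rw [hQ]
      apply mul_le_mul_of_nonneg_left _ hP0.le
      exact Real.rpow_le_rpow_of_exponent_le hH1 (by linarith)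
    refine (Finset.sum_le_sum e1).trans ?_
    rw [Finset.sum_const, hIc, nsmul_eq_mul, mul_comm]
    apply mul_le_mul_of_nonneg_left _ hQp.le
    push_cast
    exact hKl
  have p3 : ∑ p ∈ (I ×ˢ I).filter (fun p => p.1 < p.2), ((hyp c p.1 H ∩ hyp c p.2 H).card : ℝ) ≤
      Q * (3 ^ (d - 2) * ((2 * η + 1) * (1 + Real.log H)) ^ 2) := by
    have e1 : ∀ p ∈ (I ×ˢ I).filter (fun p => p.1 < p.2),
        ((hyp c p.1 H ∩ hyp c p.2 H).card : ℝ) ≤ 3 ^ (d - 2) * Q := by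
      intro p hp
      have e2 := pair hd c hc hsq hnd p.1 p.2 (Finset.mem_filter.1 hp).2 H
      have e3 : ((hyp c p.1 H ∩ hyp c p.2 H).card : ℝ) ≤ (2 * (H : ℝ) + 1) ^ (d - 2) := by
        exact_mod_cast e2
      refine e3.trans ?_
      have e4 : (2 * (H : ℝ) + 1) ^ (d - 2) ≤ (3 * H) ^ (d - 2) :=
        pow_le_pow_left₀ (by positivity) (by linarith) _
      refine e4.trans ?_
      rw [mul_pow]
      exact mul_le_mul_of_nonneg_left hHd (by positivity)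
    refine (Finset.sum_le_sum e1).trans ?_
    rw [Finset.sum_const, nsmul_eq_mul]
    have e5 : (((I ×ˢ I).filter (fun p : ℤ × ℤ => p.1 < p.2)).card : ℝ) ≤ (2 * (K : ℝ) + 1) ^ 2 := by
      have h1 := Finset.card_filter_le (I ×ˢ I) (fun p : ℤ × ℤ => p.1 < p.2)
      rw [Finset.card_product, hIc] at h1
      have h2 : (((I ×ˢ I).filter (fun p : ℤ × ℤ => p.1 < p.2)).card : ℝ) ≤
          (((2 * K + 1) * (2 * K + 1) : ℕ) : ℝ) := by exact_mod_cast h1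
      refine h2.trans (le_of_eq ?_)
      push_cast
      ring
    have e6 : (2 * (K : ℝ) + 1) ^ 2 ≤ ((2 * η + 1) * (1 + Real.log H)) ^ 2 :=
      pow_le_pow_left₀ (by positivity) hKl 2
    calc _ ≤ ((2 * η + 1) * (1 + Real.log H)) ^ 2 * (3 ^ (d - 2) * Q) :=
          mul_le_mul_of_nonneg_right (e5.trans e6) (by positivity)
      _ = _ := by ring
  have hl1 : 1 + Real.log H ≤ (1 + Real.log H) ^ 2 := by nlinarith
  have hfin : C * (1 + Real.log H) + (2 * η + 1) * (1 + Real.log H) +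
      3 ^ (d - 2) * ((2 * η + 1) * (1 + Real.log H)) ^ 2 ≤ (H : ℝ) ^ δ := by
    refine le_trans ?_ (hlp H (by omega))
    have e1 : C * (1 + Real.log H) ≤ C * (1 + Real.log H) ^ 2 :=
      mul_le_mul_of_nonneg_left hl1 hC.le
    have e2 : (2 * η + 1) * (1 + Real.log H) ≤ (2 * η + 1) * (1 + Real.log H) ^ 2 :=
      mul_le_mul_of_nonneg_left hl1 (by positivity)
    rw [hM, mul_pow]
    linarith
  calc _ ≤ Q * (C * (1 + Real.log H)) + (Q * ((2 * η + 1) * (1 + Real.log H)) +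
        Q * (3 ^ (d - 2) * ((2 * η + 1) * (1 + Real.log H)) ^ 2)) :=
        add_le_add p1 (add_le_add p2 p3)
    _ = Q * (C * (1 + Real.log H) + (2 * η + 1) * (1 + Real.log H) +
      3 ^ (d - 2) * ((2 * η + 1) * (1 + Real.log H)) ^ 2) := by ring
    _ ≤ Q * (H : ℝ) ^ δ := mul_le_mul_of_nonneg_left hfin hQp.le
    _ = _ := by
        rw [hQ, mul_assoc, ← Real.rpow_add hH0]
        congr 2
        ring

end Pool.Agent.Q183.SKY
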