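import Pool.Agent.Q183.SKY.Main
import Pool.Agent.W878.SK.Lowb

/-!
# Many initial values with a zero at `-1`
-/

set_option autoImplicit false

namespace Pool.Agent.Q183.SKY

open Polynomial Finset Pool.Agent.H884R2.Sko Pool.Agent.W935.SK Pool.Agent.H692R2.USS
open scoped Classical

theorem hyp_low {d : ℕ} (hd : 2 ≤ d) (c : Fin d → ℤ) (hc : c ⟨d - 1, by omega⟩ ≠ 0)
    (hsq : Squarefree ((charPoly c).map (Int.castRingHom ℚ))) (m : ℤ) :
    ∃ κ : ℝ, 0 < κ ∧ ∃ H₀ : ℕ, ∀ H : ℕ, H₀ ≤ H →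
      κ * (H : ℝ) ^ (d - 1) ≤ ((hyp c m H).card : ℝ) := by
  obtain ⟨Λ, hinj, h0, hprod, hrel⟩ := exists_lam (by omega) c hc hsq
  obtain ⟨r, hr1, hr2⟩ := aco_rat (by omega) c hc hinj h0 hrel
  obtain ⟨b, hb⟩ := IsLocalization.exist_integer_multiples_of_finite (nonZeroDivisors ℤ)
    (fun l : Fin d => r l m)
  have hb0 : ((b : ℤ) : ℚ) ≠ 0 := by
    have := nonZeroDivisors.ne_zero b.2
    exact_mod_cast this
  choose f hf using hb
  have hf' : ∀ l, (f l : ℚ) = ((b : ℤ) : ℚ) * r l m := by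
    intro l
    have h := hf l
    simpa using h
  obtain ⟨κ, hκ, H₀, h⟩ := Pool.Agent.W878.SK.lowb d f (by omega)
  refine ⟨κ, hκ, H₀, fun H hH => (h H hH).trans (le_of_eq ?_)⟩
  rw [hyp_eq (by omega) c hc r hr2]
  congr 2
  refine Finset.filter_congr fun a _ => ?_
  have e : ((∑ i, f i * a i : ℤ) : ℚ) = ((b : ℤ) : ℚ) * ∑ l, (a l : ℚ) * r l m := by
    push_cast
    rw [Finset.mul_sum]
    refine Finset.sum_congr rfl fun l _ => ?_
    rw [hf' l]
    ring
  constructor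
  · intro h1
    rw [h1, Int.cast_zero] at e
    exact (mul_eq_zero.1 e.symm).resolve_left hb0
  · intro h1
    rw [h1, mul_zero] at e
    exact_mod_cast e

end Pool.Agent.Q183.SKY
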