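import Pool.Agent.Q183.SKY.Count
import Pool.Agent.W935.SK.Fin

/-!
# The zeros of large index
-/

set_option autoImplicit false

namespace Pool.Agent.Q183.SKY

open Polynomial Finset Pool.Agent.H884R2.Sko Pool.Agent.W935.SK Pool.Agent.H692R2.USS
open Pool.Agent.Helper259.AbsHt Pool.Agent.Y215.SK Pool.Agent.Y556.SK
open scoped Classical

theorem ann_pow {k : ℕ} (Λ y : Fin k → Qbar) :
    Ann (∏ i, (X - C (Λ i))) (fun n => ∑ i, y i * Λ i ^ n) := by
  have e : (fun n => ∑ i, y i * Λ i ^ n) = ∑ i, (fun n => y i * Λ i ^ n : ℕ → Qbar) := by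
    funext n
    rw [Finset.sum_apply]
  rw [e]
  refine Ann.sum _ fun i _ => ?_
  have h : Ann (X - C (Λ i)) (fun n => y i * Λ i ^ n) := by
    unfold Ann
    rw [map_sub, aeval_X, aeval_C, LinearMap.sub_apply]
    funext n
    rw [Pi.sub_apply, E_apply, Module.algebraMap_end_apply, Pi.smul_apply, smul_eq_mul, pow_succ,
      Pi.zero_apply]
    ring
  exact h.of_dvd (Finset.dvd_prod_of_mem _ (Finset.mem_univ i))

theorem h1_int_le (z : ℤ) (H : ℕ) (hH : 1 ≤ H) (hz : |z| ≤ H) :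
    h1 ((z : Qbar)) ≤ Real.log H := by
  have e : ((z : Qbar)) = (((z : ℚ)) : Qbar) := by push_cast; rfl
  rw [e, h1_rat]
  have e1 : ((z : ℚ)).num.natAbs = z.natAbs := by simp
  have e2 : ((z : ℚ)).den = 1 := by simp
  rw [e1, e2]
  apply Real.log_le_log
  · have : 1 ≤ max z.natAbs 1 := le_max_right _ _
    exact_mod_cast this
  · have : max z.natAbs 1 ≤ H := by
      apply max_le _ hH
      have h3 := Int.natCast_natAbs z
      omega
    exact_mod_cast this

theorem zb {d : ℕ} (hd : 1 ≤ d) (c : Fin d → ℤ) (hc : c ⟨d - 1, by omega⟩ ≠ 0)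
    {Λ : Fin d → Qbar} (hinj : Function.Injective Λ) (h0 : ∀ i, Λ i ≠ 0)
    (h : ∀ i, Λ i ^ d = ∑ j : Fin d, (c j : Qbar) * Λ i ^ (d - 1 - (j : ℕ)))
    (r : Fin d → ℤ → ℚ) (hr : ∀ (a : Fin d → ℤ) (w : ℤ → ℚ), IsBi c a w →
      ∀ m, w m = ∑ j, (a j : ℚ) * r j m) :
    ∃ (B : ℝ) (L : ℕ), 0 ≤ B ∧ 1 ≤ L ∧ ∀ (H : ℕ), 2 ≤ H → ∀ a ∈ box (0 : Fin d → ℤ) H,
      ∀ w, IsBi c a w → ∀ ε : ℤ, (ε = 1 ∨ ε = -1) → ∀ n : ℕ, w (ε * n) = 0 →
        (∀ m : ℕ, m ≡ n [MOD L] → w (ε * m) = 0) ∨ (n : ℝ) ≤ B * Real.log H := by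
  obtain ⟨V, hV⟩ : ∃ V : Fin d → Qbarˣ, V = fun i => Units.mk0 (Λ i) (h0 i) := ⟨_, rfl⟩
  have hVc : ∀ i, ((V i : Qbarˣ) : Qbar) = Λ i := fun i => by rw [hV]; rfl
  obtain ⟨Γ, hΓd⟩ : ∃ Γ : Subgroup Qbarˣ, Γ = Subgroup.closure (Set.range V) := ⟨_, rfl⟩
  have hΓ : Γ.FG := by
    rw [Subgroup.fg_iff]
    exact ⟨Set.range V, hΓd.symm, Set.finite_range V⟩
  obtain ⟨D, hD⟩ : ∃ D : ℕ, D = ∑ i, ∑ j, dg (Λ i / Λ j) := ⟨_, rfl⟩
  have hDle : ∀ i j, dg (Λ i / Λ j) ≤ D := by
    intro i j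
    rw [hD]
    exact (Finset.single_le_sum (f := fun j => dg (Λ i / Λ j)) (fun _ _ => Nat.zero_le _)
        (Finset.mem_univ j)).trans
        (Finset.single_le_sum (f := fun i => ∑ j, dg (Λ i / Λ j)) (fun _ _ => Nat.zero_le _)
        (Finset.mem_univ i))
  obtain ⟨L, hL1, hL⟩ := tors D
  obtain ⟨B, hB0, hB⟩ := zeros Γ hΓ d D L hL
  obtain ⟨R, hR⟩ : ∃ R : ℝ, R = ∑ m ∈ range d, ∑ j,
    (h1 ((r j m : ℚ) : Qbar) + h1 ((r j (-m) : ℚ) : Qbar)) := ⟨_, rfl⟩
  have hR0 : 0 ≤ R := by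
    rw [hR]
    exact Finset.sum_nonneg fun _ _ => Finset.sum_nonneg fun _ _ =>
      add_nonneg (h1_nonneg _) (h1_nonneg _)
  have hl2 : 0 ≤ Real.log 2 := Real.log_nonneg (by norm_num)
  have hΛ0 : 0 ≤ ∑ i, h1 (Λ i) := Finset.sum_nonneg fun _ _ => h1_nonneg _
  obtain ⟨K, hK⟩ : ∃ K : ℝ, K = 1 + ∑ i, h1 (Λ i) + d * (d * Real.log 2 + R) := ⟨_, rfl⟩
  have hK0 : 0 ≤ K := by rw [hK]; positivity
  refine ⟨B * (2 * K + d * d), L, by positivity, hL1, fun H hH a ha w hw ε hε n hn => ?_⟩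
  have hVe : ∀ i, ((V i ^ ε : Qbarˣ) : Qbar) = Λ i ^ ε := by
    intro i
    rw [Units.val_zpow_eq_zpow_val, hVc]
  have hu : ∀ m : ℕ, ((w (ε * m) : ℚ) : Qbar) = ∑ i, yco Λ a i * (((V i ^ ε : Qbarˣ) : Qbar)) ^ m := by
    intro m
    rw [bi_pow hd c hc hinj h0 h a w hw]
    refine Finset.sum_congr rfl fun i _ => ?_
    rw [hVe, zpow_mul, zpow_natCast]
  have key := hB (fun i => V i ^ ε) ?_ ?_ (fun m => ((w (ε * m) : ℚ) : Qbar)) ?_ n ?_
  · rcases key with key | key
    · left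
      intro m hm
      have := key m hm
      exact_mod_cast this
    · right
      have h2 := key.2 ?_
      · refine h2.trans ?_
        have e1 : ∑ i, h1 (((V i ^ ε : Qbarˣ) : Qbar)) = ∑ i, h1 (Λ i) := by
          refine Finset.sum_congr rfl fun i _ => ?_
          rw [hVe, h1_zpow]
          rcases hε with rfl | rfl <;> simp
        have hH1 : 1 ≤ H := by omega
        have e2 : ∀ m ∈ range d, h1 ((w (ε * m) : ℚ) : Qbar) ≤
            d * Real.log 2 + (d * Real.log H + R) := by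
          intro m hm
          rw [hr a w hw]
          push_cast
          refine (h1_lin _ _).trans ?_
          rw [Finset.sum_add_distrib]
          have f1 : ∑ j, h1 ((a j : Qbar)) ≤ d * Real.log H := by
            have := Finset.sum_le_sum (s := (Finset.univ : Finset (Fin d)))
              fun j _ => h1_int_le (a j) H hH1 (by simpa using mem_box.1 ha j)
            rwa [Finset.sum_const, Finset.card_univ, Fintype.card_fin, nsmul_eq_mul] at this
          have f2 : ∑ j, h1 ((r j (ε * m) : ℚ) : Qbar) ≤ R := by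
            have g1 : ∑ j, h1 ((r j (ε * m) : ℚ) : Qbar) ≤
                ∑ j, (h1 ((r j m : ℚ) : Qbar) + h1 ((r j (-m) : ℚ) : Qbar)) := by
              refine Finset.sum_le_sum fun j _ => ?_
              rcases hε with rfl | rfl
              · rw [one_mul]
                linarith [h1_nonneg ((r j (-m) : ℚ) : Qbar)]
              · rw [neg_one_mul]
                linarith [h1_nonneg ((r j m : ℚ) : Qbar)]
            refine g1.trans ?_
            rw [hR]
            exact Finset.single_le_sum (f := fun m : ℕ => ∑ j,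
              (h1 ((r j m : ℚ) : Qbar) + h1 ((r j (-m) : ℚ) : Qbar)))
              (fun _ _ => Finset.sum_nonneg fun _ _ => add_nonneg (h1_nonneg _) (h1_nonneg _)) hm
          linarith
        have e3 := Finset.sum_le_sum e2
        rw [Finset.sum_const, Finset.card_range, nsmul_eq_mul] at e3
        have e4 : Real.log 2 ≤ Real.log H := Real.log_le_log (by norm_num) (by exact_mod_cast hH)
        have e5 := Real.log_two_gt_d9
        have e6 : 1 + ∑ i, h1 (Λ i) + d * (d * Real.log 2 + (d * Real.log H + R)) ≤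
            (2 * K + d * d) * Real.log H := by
          have f1 : 1 + ∑ i, h1 (Λ i) + d * (d * Real.log 2 + (d * Real.log H + R)) =
              K + d * d * Real.log H := by rw [hK]; ring
          rw [f1]
          have f2 : K * 1 ≤ K * (2 * Real.log H) := mul_le_mul_of_nonneg_left (by linarith) hK0
          linarith
        rw [e1, mul_assoc]
        apply mul_le_mul_of_nonneg_left _ hB0
        linarith
      · intro i j hij
        simp only at hij
        have h3 : V i = V j := by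
          rcases hε with rfl | rfl
          · simpa using hij
          · simpa using hij
        apply hinj
        rw [← hVc, ← hVc, h3]
  · intro i
    refine ⟨1, one_pos, ?_⟩
    rw [pow_one, hΓd]
    exact Subgroup.zpow_mem _ (Subgroup.subset_closure (Set.mem_range_self i)) _
  · intro i j
    simp only [hVe]
    rcases hε with rfl | rfl
    · rw [zpow_one, zpow_one]
      exact hDle i j
    · have e1 : Λ i ^ (-1 : ℤ) / Λ j ^ (-1 : ℤ) = Λ j / Λ i := by
        rw [zpow_neg_one, zpow_neg_one]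
        have := h0 i
        have := h0 j
        field_simp
      rw [e1]
      exact hDle j i
  · have e1 : (fun m : ℕ => ((w (ε * m) : ℚ) : Qbar)) =
        fun m => ∑ i, yco Λ a i * (((V i ^ ε : Qbarˣ) : Qbar)) ^ m := by
      funext m
      exact hu m
    rw [e1]
    exact ann_pow _ _
  · rw [hn]
    simp

theorem hyp_eq {d : ℕ} (hd : 1 ≤ d) (c : Fin d → ℤ) (hc : c ⟨d - 1, by omega⟩ ≠ 0)
    (r : Fin d → ℤ → ℚ) (hr : ∀ (a : Fin d → ℤ) (w : ℤ → ℚ), IsBi c a w →
      ∀ m, w m = ∑ j, (a j : ℚ) * r j m) (m : ℤ) (H : ℕ) :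
    hyp c m H = (box (0 : Fin d → ℤ) H).filter (fun a => ∑ l, (a l : ℚ) * r l m = 0) := by
  unfold hyp
  refine Finset.filter_congr fun a _ => ?_
  obtain ⟨_, _, _, _, _, _, _, _, _, h2⟩ := bi2 d hd c hc 0
  obtain ⟨⟨w, hw⟩, _⟩ := h2 a
  constructor
  · rintro ⟨w', hw', h0⟩
    rw [← hr a w' hw', h0]
  · intro h0
    exact ⟨w, hw, by rw [hr a w hw, h0]⟩

end Pool.Agent.Q183.SKY
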