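import Pool.Agent.Q183.SKY.Tail

/-!
# The number of initial values with a zero of large index
-/

set_option autoImplicit false

namespace Pool.Agent.Q183.SKY

open Polynomial Finset Pool.Agent.H884R2.Sko Pool.Agent.W935.SK Pool.Agent.H692R2.USS
open Pool.Agent.Helper259.AbsHt Pool.Agent.Y215.SK Pool.Agent.Y556.SK
open scoped Classical

theorem cnt {d : ℕ} (hd : 2 ≤ d) (c : Fin d → ℤ) (hc : c ⟨d - 1, by omega⟩ ≠ 0)
    {Λ : Fin d → Qbar} (hinj : Function.Injective Λ) (h0 : ∀ i, Λ i ≠ 0)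
    (hprod : (charPoly c).map (Int.castRingHom Qbar) = ∏ i, (X - C (Λ i)))
    (hnd : ∀ b : ℕ, 1 ≤ b → ∀ r : ℤ, ¬ charPoly c ∣ X ^ b - C r)
    (r : Fin d → ℤ → ℚ) (hr1 : ∀ j m, ((r j m : ℚ) : Qbar) = Aco Λ j m)
    (hr : ∀ (a : Fin d → ℤ) (w : ℤ → ℚ), IsBi c a w → ∀ m, w m = ∑ j, (a j : ℚ) * r j m) :
    ∃ κ A : ℝ, 0 < κ ∧ 0 ≤ A ∧ ∀ (m : ℤ) (H : ℕ), ((hyp c m H).card : ℝ) ≤
      (2 * (H : ℝ) + 1) ^ (d - 2) *
        ((2 * H + 1) * (Real.exp A * Real.exp (-κ) ^ m.natAbs) + 1) := by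
  obtain ⟨κ, A, hκ, hA, h⟩ := growth (by omega) c hinj h0 hprod hnd r hr1
  refine ⟨κ, A, hκ, hA, fun m H => ?_⟩
  obtain ⟨i, j, hj, hij⟩ := h m
  rw [hyp_eq (by omega) c hc r hr]
  have hz : Real.exp A * Real.exp (-κ) ^ m.natAbs = Real.exp (A - κ * |(m : ℝ)|) := by
    rw [← Real.exp_nat_mul, ← Real.exp_add]
    congr 1
    have : ((m.natAbs : ℕ) : ℝ) = |(m : ℝ)| := by
      rw [Nat.cast_natAbs]
      push_cast
      rfl
    rw [this]
    ring
  rw [hz]
  have h2 := count_height hd (fun l => r l m) i j hj H (Real.exp (A - κ * |(m : ℝ)|))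
    (Real.exp_pos _) (by
      rw [one_div, ← Real.exp_neg]
      apply Real.exp_le_exp.2
      linarith)
  refine h2.trans (le_of_eq ?_)
  ring

theorem tail {d : ℕ} (hd : 2 ≤ d) (c : Fin d → ℤ) (hc : c ⟨d - 1, by omega⟩ ≠ 0)
    (hsq : Squarefree ((charPoly c).map (Int.castRingHom ℚ)))
    (hnd : ∀ b : ℕ, 1 ≤ b → ∀ r : ℤ, ¬ charPoly c ∣ X ^ b - C r) :
    ∃ C θ : ℝ, 0 < C ∧ 0 < θ ∧ θ < 1 ∧ ∀ H : ℕ, 2 ≤ H → ∀ k : ℕ,
      (((box (0 : Fin d → ℤ) H).filter
        (fun a => ∃ w, IsBi c a w ∧ ∃ m : ℤ, (k : ℤ) ≤ |m| ∧ w m = 0)).card : ℝ) ≤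
      C * (θ ^ k * (H : ℝ) ^ (d - 1) + (H : ℝ) ^ (d - 2) * Real.log H) := by
  obtain ⟨Λ, hinj, h0, hprod, hrel⟩ := exists_lam (by omega) c hc hsq
  obtain ⟨r, hr1, hr2⟩ := aco_rat (by omega) c hc hinj h0 hrel
  obtain ⟨κ, A, hκ, hA, hcnt⟩ := cnt hd c hc hinj h0 hprod hnd r hr1 hr2
  obtain ⟨B0, L, hB0, hL1, hzb⟩ := zb (by omega) c hc hinj h0 hrel r hr2
  obtain ⟨B, hB⟩ : ∃ B : ℝ, B = B0 + 1 / κ := ⟨_, rfl⟩
  have hBB0 : B0 ≤ B := by
    rw [hB]
    have : 0 ≤ 1 / κ := by positivity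
    linarith
  have hBp : 0 ≤ B := hB0.trans hBB0
  have hBκ : 1 ≤ κ * B := by
    rw [hB, mul_add]
    have : κ * (1 / κ) = 1 := by field_simp
    rw [this]
    have := mul_nonneg hκ.le hB0
    linarith
  obtain ⟨θ, hθ⟩ : ∃ θ : ℝ, θ = Real.exp (-κ) := ⟨_, rfl⟩
  have hθ0 : 0 < θ := by rw [hθ]; exact Real.exp_pos _
  have hθ1 : θ < 1 := by
    rw [hθ, Real.exp_lt_one_iff]
    linarith
  have hθ2 : 0 < 1 - θ := by linarith
  obtain ⟨E, hE⟩ : ∃ E : ℝ, E = 3 * Real.exp A / (1 - θ) := ⟨_, rfl⟩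
  have hE0 : 0 < E := by rw [hE]; positivity
  refine ⟨2 * 3 ^ (d - 2) * (2 * E + B + 2 * (L + 1)), θ, by positivity, hθ0, hθ1,
    fun H hH k => ?_⟩
  have hHr : (2 : ℝ) ≤ H := by exact_mod_cast hH
  have hH0 : (0 : ℝ) < H := by linarith
  have hlog2 : Real.log 2 ≤ Real.log H := Real.log_le_log (by norm_num) hHr
  have hlog : 1 ≤ 2 * Real.log H := by
    have := Real.log_two_gt_d9
    linarith
  have hlog0 : 0 ≤ Real.log H := by linarith
  obtain ⟨K, hK⟩ : ∃ K : ℕ, K = ⌊B * Real.log H⌋₊ := ⟨_, rfl⟩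
  have hK1 : (K : ℝ) ≤ B * Real.log H := by
    rw [hK]
    exact Nat.floor_le (by positivity)
  have hK2 : B * Real.log H < K + 1 := by
    rw [hK]
    exact Nat.lt_floor_add_one _
  -- a zero with index in a bounded range
  have hsub : (box (0 : Fin d → ℤ) H).filter
      (fun a => ∃ w, IsBi c a w ∧ ∃ m : ℤ, (k : ℤ) ≤ |m| ∧ w m = 0) ⊆
      (Finset.Ico (min k (K + 1)) (K + L + 1)).biUnion
        (fun n : ℕ => hyp c ((n : ℕ) : ℤ) H ∪ hyp c (-((n : ℕ) : ℤ)) H) := by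
    intro a ha
    rw [Finset.mem_filter] at ha
    obtain ⟨hab, w, hw, m, hkm, hm0⟩ := ha
    obtain ⟨ε, hε, n, hn⟩ : ∃ ε : ℤ, (ε = 1 ∨ ε = -1) ∧ ∃ n : ℕ, m = ε * n := by
      rcases le_total 0 m with h | h
      · exact ⟨1, Or.inl rfl, m.natAbs, by omega⟩
      · exact ⟨-1, Or.inr rfl, m.natAbs, by omega⟩
    have hkn : k ≤ n := by
      rw [hn, abs_mul] at hkm
      have : |ε| = 1 := by rcases hε with rfl | rfl <;> simp
      rw [this, one_mul, Nat.abs_cast] at hkm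
      exact_mod_cast hkm
    rw [hn] at hm0
    -- the final step
    have fin : ∀ n' : ℕ, min k (K + 1) ≤ n' → n' < K + L + 1 → w (ε * n') = 0 →
        a ∈ (Finset.Ico (min k (K + 1)) (K + L + 1)).biUnion
        (fun n : ℕ => hyp c ((n : ℕ) : ℤ) H ∪ hyp c (-((n : ℕ) : ℤ)) H) := by
      intro n' h1 h2 h3
      rw [Finset.mem_biUnion]
      refine ⟨n', Finset.mem_Ico.2 ⟨h1, h2⟩, ?_⟩
      rw [Finset.mem_union]
      rcases hε with rfl | rfl
      · left
        unfold hyp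
        rw [Finset.mem_filter]
        rw [one_mul] at h3
        exact ⟨hab, w, hw, h3⟩
      · right
        unfold hyp
        rw [Finset.mem_filter]
        rw [neg_one_mul] at h3
        exact ⟨hab, w, hw, h3⟩
    by_cases hsm : (n : ℝ) ≤ B * Real.log H
    · have hnK : n ≤ K := by
        rw [hK]
        exact Nat.le_floor hsm
      exact fin n ((min_le_left _ _).trans hkn) (by omega) hm0
    · rcases hzb H hH a hab w hw ε hε n hm0 with h | h
      · have hKn : K + 1 ≤ n := by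
          by_contra hcon
          apply hsm
          have : (n : ℝ) ≤ K := by
            have : n ≤ K := by omega
            exact_mod_cast this
          exact this.trans hK1
        refine fin (K + 1 + (n - (K + 1)) % L) ?_ ?_ ?_
        · exact (min_le_right _ _).trans (Nat.le_add_right _ _)
        · have := Nat.mod_lt (n - (K + 1)) (show 0 < L by omega)
          omega
        · apply h
          have h1 : (n - (K + 1)) % L ≡ n - (K + 1) [MOD L] := Nat.mod_modEq _ _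
          have h2 := h1.add_left (K + 1)
          rwa [Nat.add_sub_cancel' hKn] at h2
      · exact absurd (h.trans (mul_le_mul_of_nonneg_right hBB0 hlog0)) hsm
  have h1 := (Finset.card_le_card hsub).trans Finset.card_biUnion_le
  have h2 : ∀ n ∈ Finset.Ico (min k (K + 1)) (K + L + 1),
      ((hyp c ((n : ℕ) : ℤ) H ∪ hyp c (-((n : ℕ) : ℤ)) H).card : ℝ) ≤
      2 * ((2 * (H : ℝ) + 1) ^ (d - 2) * ((2 * H + 1) * (Real.exp A * θ ^ n) + 1)) := by
    intro n _
    have e1 := hcnt (n : ℤ) H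
    have e2 := hcnt (-(n : ℤ)) H
    rw [Int.natAbs_natCast, ← hθ] at e1
    rw [Int.natAbs_neg, Int.natAbs_natCast, ← hθ] at e2
    have e3 : ((hyp c ((n : ℕ) : ℤ) H ∪ hyp c (-((n : ℕ) : ℤ)) H).card : ℝ) ≤
        (hyp c ((n : ℕ) : ℤ) H).card + (hyp c (-((n : ℕ) : ℤ)) H).card := by
      exact_mod_cast Finset.card_union_le _ _
    linarith
  have h3 : ((∑ n ∈ Finset.Ico (min k (K + 1)) (K + L + 1),
      (hyp c ((n : ℕ) : ℤ) H ∪ hyp c (-((n : ℕ) : ℤ)) H).card : ℕ) : ℝ) ≤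
      2 * ((2 * (H : ℝ) + 1) ^ (d - 2) * ((2 * H + 1) * (Real.exp A *
        (θ ^ (min k (K + 1)) / (1 - θ))) + (K + L + 1))) := by
    push_cast
    refine (Finset.sum_le_sum h2).trans ?_
    rw [← Finset.mul_sum, ← Finset.mul_sum, Finset.sum_add_distrib, ← Finset.mul_sum,
      ← Finset.mul_sum, Finset.sum_const, Nat.card_Ico, nsmul_eq_mul, mul_one]
    have e1 : ∑ i ∈ Finset.Ico (min k (K + 1)) (K + L + 1), θ ^ i ≤
        θ ^ (min k (K + 1)) / (1 - θ) := geom_sum_Ico_le_of_lt_one hθ0.le hθ1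
    have e2 : ((K + L + 1 - min k (K + 1) : ℕ) : ℝ) ≤ K + L + 1 := by
      have : K + L + 1 - min k (K + 1) ≤ K + L + 1 := Nat.sub_le _ _
      exact_mod_cast this
    have e3 : 0 < Real.exp A := Real.exp_pos _
    apply mul_le_mul_of_nonneg_left _ (by norm_num)
    apply mul_le_mul_of_nonneg_left _ (by positivity)
    apply add_le_add _ e2
    apply mul_le_mul_of_nonneg_left _ (by positivity)
    exact mul_le_mul_of_nonneg_left e1 e3.le
  have h4 : θ ^ (min k (K + 1)) ≤ θ ^ k + 1 / H := by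
    rcases le_total k (K + 1) with h | h
    · rw [min_eq_left h]
      have : 0 ≤ 1 / (H : ℝ) := by positivity
      linarith
    · rw [min_eq_right h]
      have e1 : θ ^ (K + 1) ≤ 1 / H := by
        rw [hθ, ← Real.exp_nat_mul, one_div, ← Real.exp_log hH0, ← Real.exp_neg]
        apply Real.exp_le_exp.2
        push_cast
        have f1 : κ * (B * Real.log H) ≤ κ * (K + 1) := mul_le_mul_of_nonneg_left hK2.le hκ.le
        have f2 : 1 * Real.log H ≤ κ * B * Real.log H := mul_le_mul_of_nonneg_right hBκ hlog0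
        have f3 : κ * B * Real.log H = κ * (B * Real.log H) := by ring
        linarith
      have : 0 ≤ θ ^ k := by positivity
      linarith
  have h5 : (2 * (H : ℝ) + 1) ^ (d - 2) ≤ (3 * H) ^ (d - 2) :=
    pow_le_pow_left₀ (by positivity) (by linarith) _
  have h6 : (2 * (H : ℝ) + 1) * (Real.exp A * (θ ^ (min k (K + 1)) / (1 - θ))) ≤
      E * H * (θ ^ k + 1 / H) := by
    have e1 : (2 * (H : ℝ) + 1) * (Real.exp A * (θ ^ (min k (K + 1)) / (1 - θ))) =
        (2 * (H : ℝ) + 1) * (Real.exp A / (1 - θ)) * θ ^ (min k (K + 1)) := by ring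
    have e2 : E * H = (3 * H) * (Real.exp A / (1 - θ)) := by rw [hE]; ring
    rw [e1, e2]
    apply mul_le_mul _ h4 (by positivity) (by positivity)
    apply mul_le_mul_of_nonneg_right (by linarith) (by positivity)
  have h7 : (2 * (H : ℝ) + 1) * (Real.exp A * (θ ^ (min k (K + 1)) / (1 - θ))) + (K + L + 1) ≤
      (2 * E + B + 2 * (L + 1)) * (θ ^ k * H + Real.log H) := by
    have e1 : E * H * (θ ^ k + 1 / H) = E * (θ ^ k * H) + E := by field_simp
    have e2 : E * 1 ≤ E * (2 * Real.log H) := mul_le_mul_of_nonneg_left hlog hE0.le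
    have e3 : ((L : ℝ) + 1) * 1 ≤ (L + 1) * (2 * Real.log H) :=
      mul_le_mul_of_nonneg_left hlog (by positivity)
    have e4 : 0 ≤ (E + B + 2 * (L + 1)) * (θ ^ k * H) := by positivity
    have e5 : (2 * E + B + 2 * (L + 1)) * (θ ^ k * H + Real.log H) =
        E * (θ ^ k * H) + (E + B + 2 * (L + 1)) * (θ ^ k * H) + E * (2 * Real.log H) +
          B * Real.log H + (L + 1) * (2 * Real.log H) := by ring
    rw [e5]
    rw [e1] at h6
    linarith
  have h8 : (H : ℝ) ^ (d - 1) = (H : ℝ) ^ (d - 2) * H := by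
    rw [← pow_succ]
    congr 1
    omega
  calc (((box (0 : Fin d → ℤ) H).filter
        (fun a => ∃ w, IsBi c a w ∧ ∃ m : ℤ, (k : ℤ) ≤ |m| ∧ w m = 0)).card : ℝ)
      ≤ ((∑ n ∈ Finset.Ico (min k (K + 1)) (K + L + 1),
      (hyp c ((n : ℕ) : ℤ) H ∪ hyp c (-((n : ℕ) : ℤ)) H).card : ℕ) : ℝ) := by exact_mod_cast h1
    _ ≤ _ := h3
    _ ≤ 2 * ((3 * (H : ℝ)) ^ (d - 2) *
        ((2 * E + B + 2 * (L + 1)) * (θ ^ k * H + Real.log H))) := by
        apply mul_le_mul_of_nonneg_left _ (by norm_num)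
        apply mul_le_mul h5 h7 _ (by positivity)
        have : 0 < Real.exp A := Real.exp_pos _
        positivity
    _ = _ := by
        rw [h8, mul_pow]
        ring

end Pool.Agent.Q183.SKY
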