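import Pool.Agent.Q183.SKY.Tail2
import Pool.Agent.W935.SK.FinQ

/-!
# Certificates, uniformly in the index of the zero
-/

set_option autoImplicit false

namespace Pool.Agent.Q183.SKY

open Polynomial Finset Pool.Agent.H884R2.Sko Pool.Agent.W935.SK Pool.Agent.H692R2.USS
open scoped Classical

/-- integrality and size of the terms -/
theorem int_bd {d : ℕ} (hd : 1 ≤ d) (c : Fin d → ℤ) (hc : c ⟨d - 1, by omega⟩ ≠ 0)
    (a : Fin d → ℤ) (w : ℤ → ℚ) (hw : IsBi c a w) (H : ℕ) (ha : ∀ i, |a i| ≤ H) (k : ℕ) :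
    ∀ n : ℤ, -(k : ℤ) ≤ n → n < k + d →
      (∃ z : ℤ, (z : ℚ) = (c ⟨d - 1, by omega⟩ : ℚ) ^ k * w n) ∧
      |w n| ≤ (1 + ∑ i, |(c i : ℚ)|) ^ k * H := by
  obtain ⟨S, hS⟩ : ∃ S : ℚ, S = 1 + ∑ i, |(c i : ℚ)| := ⟨_, rfl⟩
  have hS1 : 1 ≤ S := by
    rw [hS]
    have : 0 ≤ ∑ i, |(c i : ℚ)| := Finset.sum_nonneg fun _ _ => abs_nonneg _
    linarith
  rw [← hS]
  induction k with
  | zero =>
    intro n h1 h2
    have h3 := hw.1 ⟨n.toNat, by omega⟩
    have h4 : ((n.toNat : ℕ) : ℤ) = n := by omega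
    simp only [h4] at h3
    refine ⟨⟨a ⟨n.toNat, by omega⟩, by rw [h3]; simp⟩, ?_⟩
    rw [h3, pow_zero, one_mul]
    have := ha ⟨n.toNat, by omega⟩
    exact_mod_cast this
  | succ k ih =>
    intro n h1 h2
    push_cast at h1 h2
    have hSk : S ^ k * (H : ℚ) ≤ S ^ (k + 1) * H := by
      rw [pow_succ]
      have : 0 ≤ S ^ k * (H : ℚ) := by positivity
      nlinarith
    rcases lt_or_ge n (-(k : ℤ)) with hlt | hge
    · -- the new negative index
      have hn : n = -(k : ℤ) - 1 := by omega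
      obtain ⟨e, hde⟩ : ∃ e, d = e + 1 := ⟨d - 1, by omega⟩
      have hrec := hw.2 n
      have hlast : ∑ i : Fin d, (c i : ℚ) * w (n + d - 1 - ((i : ℕ) : ℤ)) =
          ∑ i ∈ Finset.univ.erase (⟨d - 1, by omega⟩ : Fin d),
            (c i : ℚ) * w (n + d - 1 - ((i : ℕ) : ℤ)) + (c ⟨d - 1, by omega⟩ : ℚ) * w n := by
        rw [← Finset.sum_erase_add _ _ (Finset.mem_univ (⟨d - 1, by omega⟩ : Fin d))]
        congr 3
        simp only
        omega
      rw [hlast] at hrec
      have hold : ∀ i ∈ Finset.univ.erase (⟨d - 1, by omega⟩ : Fin d),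
          -(k : ℤ) ≤ n + d - 1 - ((i : ℕ) : ℤ) ∧ n + d - 1 - ((i : ℕ) : ℤ) < k + d := by
        intro i hi
        have h3 : (i : ℕ) ≠ d - 1 := fun h => (Finset.mem_erase.1 hi).1 (Fin.ext h)
        have h4 := i.2
        constructor <;> omega
      obtain ⟨z0, hz0⟩ := (ih (n + d) (by omega) (by omega)).1
      have hz : ∀ i : Fin d, ∃ z : ℤ, i ∈ Finset.univ.erase (⟨d - 1, by omega⟩ : Fin d) →
          (z : ℚ) = (c ⟨d - 1, by omega⟩ : ℚ) ^ k * w (n + d - 1 - ((i : ℕ) : ℤ)) := by
        intro i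
        by_cases hi : i ∈ Finset.univ.erase (⟨d - 1, by omega⟩ : Fin d)
        · obtain ⟨z, hz⟩ := (ih _ (hold i hi).1 (hold i hi).2).1
          exact ⟨z, fun _ => hz⟩
        · exact ⟨0, fun h => absurd h hi⟩
      choose z hz using hz
      have hDw : (c ⟨d - 1, by omega⟩ : ℚ) * w n = w (n + d) -
          ∑ i ∈ Finset.univ.erase (⟨d - 1, by omega⟩ : Fin d),
            (c i : ℚ) * w (n + d - 1 - ((i : ℕ) : ℤ)) := by linarith
      refine ⟨⟨z0 - ∑ i ∈ Finset.univ.erase (⟨d - 1, by omega⟩ : Fin d), c i * z i, ?_⟩, ?_⟩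
      · push_cast
        rw [pow_succ, mul_assoc, hDw, mul_sub, hz0, Finset.mul_sum]
        congr 1
        refine Finset.sum_congr rfl fun i hi => ?_
        rw [hz i hi]
        ring
      · have hD1 : 1 ≤ |(c ⟨d - 1, by omega⟩ : ℚ)| := by
          have := Int.one_le_abs hc
          exact_mod_cast this
        have e1 : |w n| ≤ |(c ⟨d - 1, by omega⟩ : ℚ) * w n| := by
          rw [abs_mul]
          exact le_mul_of_one_le_left (abs_nonneg _) hD1
        refine e1.trans ?_
        rw [hDw]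
        refine (abs_sub _ _).trans ?_
        have e2 := (ih (n + d) (by omega) (by omega)).2
        have e3 : |∑ i ∈ Finset.univ.erase (⟨d - 1, by omega⟩ : Fin d),
            (c i : ℚ) * w (n + d - 1 - ((i : ℕ) : ℤ))| ≤ (∑ i, |(c i : ℚ)|) * (S ^ k * H) := by
          refine (Finset.abs_sum_le_sum_abs _ _).trans ?_
          rw [Finset.sum_mul]
          refine (Finset.sum_le_sum fun i hi => ?_).trans
            (Finset.sum_le_sum_of_subset_of_nonneg (Finset.erase_subset _ _)
              fun i _ _ => by positivity)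
          rw [abs_mul]
          exact mul_le_mul_of_nonneg_left ((ih _ (hold i hi).1 (hold i hi).2).2) (abs_nonneg _)
        have e4 : S ^ (k + 1) * (H : ℚ) = S ^ k * H + (∑ i, |(c i : ℚ)|) * (S ^ k * H) := by
          have e5 : ∑ i, |(c i : ℚ)| = S - 1 := by linarith
          rw [e5]
          ring
        linarith
    · rcases lt_or_ge n (k + d) with hlt | hge2
      · obtain ⟨⟨z, hz⟩, h3⟩ := ih n hge hlt
        refine ⟨⟨c ⟨d - 1, by omega⟩ * z, ?_⟩, h3.trans hSk⟩
        push_cast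
        rw [hz]
        ring
      · have hn : n = k + d := by omega
        have hrec := hw.2 (k : ℤ)
        rw [← hn] at hrec
        have hold : ∀ i : Fin d,
            -(k : ℤ) ≤ n - 1 - ((i : ℕ) : ℤ) ∧ n - 1 - ((i : ℕ) : ℤ) < k + d := by
          intro i
          have h4 := i.2
          constructor <;> omega
        choose z hz using fun i : Fin d => (ih _ (hold i).1 (hold i).2).1
        refine ⟨⟨c ⟨d - 1, by omega⟩ * ∑ i, c i * z i, ?_⟩, ?_⟩
        · push_cast
          rw [hrec, Finset.mul_sum, Finset.mul_sum]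
          refine Finset.sum_congr rfl fun i _ => ?_
          rw [hz i]
          ring
        · rw [hrec]
          refine (Finset.abs_sum_le_sum_abs _ _).trans ?_
          have e1 : ∑ i : Fin d, |(c i : ℚ) * w (n - 1 - ((i : ℕ) : ℤ))| ≤
              (∑ i, |(c i : ℚ)|) * (S ^ k * H) := by
            rw [Finset.sum_mul]
            refine Finset.sum_le_sum fun i _ => ?_
            rw [abs_mul]
            exact mul_le_mul_of_nonneg_left ((ih _ (hold i).1 (hold i).2).2) (abs_nonneg _)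
          have e4 : S ^ (k + 1) * (H : ℚ) = S ^ k * H + (∑ i, |(c i : ℚ)|) * (S ^ k * H) := by
            have e5 : ∑ i, |(c i : ℚ)| = S - 1 := by linarith
            rw [e5]
            ring
          have e5 : 0 ≤ S ^ k * (H : ℚ) := by positivity
          linarith

end Pool.Agent.Q183.SKY
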