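import Pool.Agent.Q183.SKY.Unif

/-!
# Certificates, uniformly in the index of the zero (continued)
-/

set_option autoImplicit false

namespace Pool.Agent.Q183.SKY

open Polynomial Finset Pool.Agent.H884R2.Sko Pool.Agent.W935.SK Pool.Agent.H692R2.USS
open scoped Classical

theorem bi_unique {d : ℕ} (hd : 1 ≤ d) (c : Fin d → ℤ) (hc : c ⟨d - 1, by omega⟩ ≠ 0)
    {a : Fin d → ℤ} {w w' : ℤ → ℚ} (hw : IsBi c a w) (hw' : IsBi c a w') : w = w' := by
  funext n
  have h := sol_zero hd (fun i => (c i : ℚ)) (by exact_mod_cast hc) (fun n => w n - w' n) ?_ ?_ n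
  · exact sub_eq_zero.1 h
  · intro n
    simp only
    rw [hw.2 n, hw'.2 n, ← Finset.sum_sub_distrib]
    exact Finset.sum_congr rfl fun i _ => by ring
  · intro i
    rw [hw.1 i, hw'.1 i, sub_self]

/-- integral initial values at `m` -/
theorem base {d : ℕ} (hd : 1 ≤ d) (c : Fin d → ℤ) (hc : c ⟨d - 1, by omega⟩ ≠ 0) (m : ℤ) :
    ∃ La : (Fin d → ℤ) → (Fin d → ℤ), Function.Injective La ∧
      (∀ H : ℕ, ∀ a ∈ box (0 : Fin d → ℤ) H, La a ∈ box (0 : Fin d → ℤ)
        (((c ⟨d - 1, by omega⟩).natAbs * (1 + ∑ i, (c i).natAbs)) ^ m.natAbs * H)) ∧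
      ∀ a w, IsBi c a w → ∀ n : ℕ, ((seq (fun i => c (Fin.rev i)) (La a) n : ℤ) : ℚ) =
        (((c ⟨d - 1, by omega⟩) ^ m.natAbs : ℤ) : ℚ) * w (m + n) := by
  have hex : ∀ a : Fin d → ℤ, ∃ w, IsBi c a w := fun a => by
    obtain ⟨_, _, _, _, _, _, _, _, _, h2⟩ := bi2 d hd c hc 0
    exact (h2 a).1
  have hbd : ∀ (a : Fin d → ℤ) (w : ℤ → ℚ), IsBi c a w → ∀ H : ℕ, (∀ i, |a i| ≤ (H : ℤ)) →
      ∀ j : Fin d, (∃ z : ℤ, (z : ℚ) = (c ⟨d - 1, by omega⟩ : ℚ) ^ m.natAbs * w (m + ((j : ℕ) : ℤ))) ∧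
        |w (m + ((j : ℕ) : ℤ))| ≤ (1 + ∑ i, |(c i : ℚ)|) ^ m.natAbs * H := by
    intro a w hw H hH j
    have hj := j.2
    exact int_bd hd c hc a w hw H hH m.natAbs _ (by omega) (by omega)
  have h1 : ∀ a : Fin d → ℤ, ∃ z : Fin d → ℤ, ∀ w, IsBi c a w → ∀ j : Fin d,
      (z j : ℚ) = (c ⟨d - 1, by omega⟩ : ℚ) ^ m.natAbs * w (m + ((j : ℕ) : ℤ)) := by
    intro a
    obtain ⟨w, hw⟩ := hex a
    have h2 : ∀ j : Fin d, ∃ z : ℤ,
        (z : ℚ) = (c ⟨d - 1, by omega⟩ : ℚ) ^ m.natAbs * w (m + ((j : ℕ) : ℤ)) := by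
      intro j
      refine (hbd a w hw (∑ i, (a i).natAbs) ?_ j).1
      intro i
      have h3 := Finset.single_le_sum (f := fun i => (a i).natAbs) (fun _ _ => Nat.zero_le _)
        (Finset.mem_univ i)
      have h4 := Int.natCast_natAbs (a i)
      rw [← h4]
      exact_mod_cast h3
    choose z hz using h2
    refine ⟨z, fun w' hw' j => ?_⟩
    rw [bi_unique hd c hc hw' hw]
    exact hz j
  choose La hLa using h1
  have hD0 : (c ⟨d - 1, by omega⟩ : ℚ) ≠ 0 := by exact_mod_cast hc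
  refine ⟨La, ?_, ?_, ?_⟩
  · intro a b hab
    obtain ⟨w, hw⟩ := hex a
    obtain ⟨w', hw'⟩ := hex b
    have h2 : ∀ n : ℤ, w (m + n) - w' (m + n) = 0 := by
      intro n
      refine sol_zero hd (fun i => (c i : ℚ)) (by exact_mod_cast hc)
        (fun n => w (m + n) - w' (m + n)) ?_ ?_ n
      · intro n
        simp only
        have e1 := hw.2 (m + n)
        have e2 := hw'.2 (m + n)
        rw [← add_assoc, e1, e2, ← Finset.sum_sub_distrib]
        refine Finset.sum_congr rfl fun i _ => ?_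
        have e3 : m + n + d - 1 - ((i : ℕ) : ℤ) = m + (n + d - 1 - ((i : ℕ) : ℤ)) := by ring
        rw [e3]
        ring
      · intro i
        have e1 := hLa a w hw i
        have e2 := hLa b w' hw' i
        rw [hab, e2] at e1
        have e3 := mul_left_cancel₀ (pow_ne_zero _ hD0) e1
        rw [e3, sub_self]
    funext i
    have h3 := h2 (((i : ℕ) : ℤ) - m)
    have e : m + (((i : ℕ) : ℤ) - m) = ((i : ℕ) : ℤ) := by ring
    rw [e, hw.1, hw'.1, sub_eq_zero] at h3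
    exact_mod_cast h3
  · intro H a ha
    rw [mem_box]
    intro j
    obtain ⟨w, hw⟩ := hex a
    have h2 := (hbd a w hw H (fun i => by simpa using mem_box.1 ha i) j).2
    have h3 := hLa a w hw j
    have h4 : |(La a j : ℚ)| ≤ ((((c ⟨d - 1, by omega⟩).natAbs *
        (1 + ∑ i, (c i).natAbs)) ^ m.natAbs * H : ℕ) : ℚ) := by
      rw [h3, abs_mul, abs_pow]
      push_cast
      rw [mul_pow, mul_assoc]
      have e1 : ((∑ i, (((c i).natAbs : ℕ) : ℚ))) = ∑ i, |(c i : ℚ)| := by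
        refine Finset.sum_congr rfl fun i _ => ?_
        rw [Nat.cast_natAbs]
        push_cast
        rfl
      have e2 : (((c ⟨d - 1, by omega⟩).natAbs : ℕ) : ℚ) = |(c ⟨d - 1, by omega⟩ : ℚ)| := by
        rw [Nat.cast_natAbs]
        push_cast
        rfl
      rw [e1, e2]
      exact mul_le_mul_of_nonneg_left h2 (by positivity)
    simp only [Pi.zero_apply, sub_zero]
    rw [← Int.cast_abs, ← Int.cast_natCast] at h4
    exact Int.cast_le.1 h4
  · intro a w hw n
    obtain ⟨_, _, _, _, _, _, _, _, _, h2⟩ := bi2 d hd c hc 0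
    have h3 : IsBi c (La a) (fun n => (((c ⟨d - 1, by omega⟩) ^ m.natAbs : ℤ) : ℚ) * w (m + n)) := by
      constructor
      · intro i
        rw [hLa a w hw i]
        push_cast
        rfl
      · intro n
        simp only
        have e1 := hw.2 (m + n)
        rw [← add_assoc, e1, Finset.mul_sum]
        refine Finset.sum_congr rfl fun i _ => ?_
        have e3 : m + n + d - 1 - ((i : ℕ) : ℤ) = m + (n + d - 1 - ((i : ℕ) : ℤ)) := by ring
        rw [e3]
        ring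
    exact (((h2 (La a)).2 _ h3).1 n).symm

end Pool.Agent.Q183.SKY
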