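import Pool.Agent.Q183.SKY.Unif2
import Pool.Agent.W935.SK.PrimeF
import Pool.Agent.W678.SK.Q0
import Pool.Agent.H684R3.Smo.Done

/-!
# Certificates, uniformly in the index of the zero (end)
-/

set_option autoImplicit false

namespace Pool.Agent.Q183.SKY

open Polynomial Finset Pool.Agent.H884R2.Sko Pool.Agent.W935.SK Pool.Agent.H692R2.USS
open scoped Classical

theorem unif {d : ℕ} (hd : 2 ≤ d) (c : Fin d → ℤ) (hc : c ⟨d - 1, by omega⟩ ≠ 0)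
    (hsq : Squarefree ((charPoly c).map (Int.castRingHom ℚ)))
    (hnd : ∀ b : ℕ, 1 ≤ b → ∀ r : ℤ, ¬ charPoly c ∣ X ^ b - C r) :
    ∃ α δ η : ℝ, 0 < α ∧ 0 < δ ∧ 0 < η ∧ ∃ H₀ : ℕ, ∀ H : ℕ, H₀ ≤ H → ∀ m : ℤ,
      (m.natAbs : ℝ) ≤ η * Real.log H →
      (((hyp c m H).filter (fun a => ¬ HasCert c a m (Real.log H ^ α))).card : ℝ) ≤
        (H : ℝ) ^ (d - 1) * (H : ℝ) ^ (-δ) := by
  have hd1 : 1 ≤ d := by omega
  set c' : Fin d → ℤ := fun i => c (Fin.rev i) with hc'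
  have hsq' := hsq
  rw [charPoly_eq] at hsq'
  have hnd' : ∀ b : ℕ, 1 ≤ b → ∀ r : ℤ, ¬ chi c' ∣ X ^ b - C r := by
    intro b hb r
    rw [← charPoly_eq]
    exact hnd b hb r
  have hc0 : (chi c').coeff 0 = - c ⟨d - 1, by omega⟩ := by
    have h := chi_coeff c' ⟨0, by omega⟩
    simp only at h
    rw [h, hc']
    simp only
    congr 2
  have hcn : (chi c').coeff 0 ≠ 0 := by
    rw [hc0, neg_ne_zero]
    exact hc
  obtain ⟨α₀, δ₀, hα₀, hδ₀, H₀, hQ⟩ :=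
    (Pool.Agent.W678.SK.q0 primef Pool.Agent.H684R3.Smo.h5 Pool.Agent.H684R3.Smo.t8) d c' hd hcn
      hsq' hnd'
  obtain ⟨P, hP⟩ : ∃ P : ℕ, P = (c ⟨d - 1, by omega⟩).natAbs * (1 + ∑ i, (c i).natAbs) := ⟨_, rfl⟩
  have hP1 : 1 ≤ P := by
    rw [hP]
    have h1 : 1 ≤ (c ⟨d - 1, by omega⟩).natAbs := Int.natAbs_pos.2 hc
    exact Nat.mul_pos h1 (by omega)
  obtain ⟨G, hG⟩ : ∃ G : ℝ, G = Real.log P := ⟨_, rfl⟩
  have hG0 : 0 ≤ G := by
    rw [hG]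
    exact Real.log_natCast_nonneg _
  obtain ⟨W, hW⟩ : ∃ W : ℝ, W = 1 + G + 4 * (G * ((d : ℝ) - 1)) / δ₀ := ⟨_, rfl⟩
  have hdr : (1 : ℝ) ≤ (d : ℝ) - 1 := by
    have : (2 : ℝ) ≤ d := by exact_mod_cast hd
    linarith
  have hX0 : 0 ≤ 4 * (G * ((d : ℝ) - 1)) / δ₀ := by
    apply div_nonneg _ hδ₀.le
    exact mul_nonneg (by norm_num) (mul_nonneg hG0 (by linarith))
  have hW1 : 1 ≤ W := by rw [hW]; linarith
  have hW0 : 0 < W := by linarith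
  have hηG : 1 / W * G ≤ 1 := by
    rw [one_div, inv_mul_le_iff₀ hW0, mul_one, hW]
    linarith
  have hηG2 : ((d : ℝ) - 1) * (1 / W * G) ≤ δ₀ / 4 := by
    have e1 : 4 * (G * ((d : ℝ) - 1)) / δ₀ ≤ W := by rw [hW]; linarith
    rw [div_le_iff₀ hδ₀] at e1
    have e2 : ((d : ℝ) - 1) * (1 / W * G) = (G * ((d : ℝ) - 1)) / W := by ring
    rw [e2, div_le_iff₀ hW0]
    linarith
  have hlogt : Filter.Tendsto (fun H : ℕ => Real.log (H : ℝ)) Filter.atTop Filter.atTop :=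
    Real.tendsto_log_atTop.comp tendsto_natCast_atTop_atTop
  obtain ⟨H₁, hH₁⟩ := Filter.eventually_atTop.1 (hlogt.eventually_ge_atTop ((2 : ℝ) ^ α₀ + 1))
  obtain ⟨H₃, hH₃⟩ := ev2 (3 ^ (d - 1)) (δ₀ / 4) (by positivity)
  refine ⟨α₀ + 1, δ₀ / 2, 1 / W, by positivity, by positivity, by positivity,
    H₀ + H₁ + H₃ + 1, fun H hH m hm => ?_⟩
  have hH1 : 1 ≤ H := by omega
  have hHr : (1 : ℝ) ≤ H := by exact_mod_cast hH1
  have hH0 : (0 : ℝ) < H := by linarith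
  have h2α : (0 : ℝ) < 2 ^ α₀ := by positivity
  have hlog := hH₁ H (by omega)
  have hl0 : 0 < Real.log H := by linarith
  obtain ⟨La, hinj, hbox, hseq⟩ := base hd1 c hc m
  rw [← hP] at hbox
  obtain ⟨Cn, hCn⟩ : ∃ Cn : ℕ, Cn = P ^ m.natAbs := ⟨_, rfl⟩
  rw [← hCn] at hbox
  have hCn1 : 1 ≤ Cn := by rw [hCn]; exact Nat.one_le_pow _ _ hP1
  have hCr : (1 : ℝ) ≤ Cn := by exact_mod_cast hCn1
  have hC0 : (0 : ℝ) < Cn := by linarith
  have hlogC : Real.log Cn ≤ 1 / W * G * Real.log H := by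
    rw [hCn, Nat.cast_pow, Real.log_pow, ← hG]
    have := mul_le_mul_of_nonneg_right hm hG0
    linarith
  have hHC : H ≤ Cn * H := Nat.le_mul_of_pos_left H hCn1
  -- transport of the exceptional set
  have hcard : ((hyp c m H).filter (fun a => ¬ HasCert c a m (Real.log H ^ (α₀ + 1)))).card ≤
      ((box (0 : Fin d → ℤ) (Cn * H)).filter (fun a => seq c' a 0 = 0 ∧
      ¬ ∃ (p b v : ℕ) (lam : ℤ), (p : ℝ) ≤ Real.log ((Cn * H : ℕ) : ℝ) ^ α₀ ∧ 2 * b ≤ p ∧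
        Cert c' a p b v lam)).card := by
    refine Finset.card_le_card_of_injOn La ?_ hinj.injOn
    intro a ha
    rw [Finset.mem_coe, Finset.mem_filter] at ha
    obtain ⟨ha1, ha2⟩ := ha
    unfold hyp at ha1
    rw [Finset.mem_filter] at ha1
    obtain ⟨hab, w, hw, hw0⟩ := ha1
    rw [Finset.mem_coe, Finset.mem_filter]
    refine ⟨hbox H a hab, ?_, ?_⟩
    · have e1 := hseq a w hw 0
      rw [Nat.cast_zero, add_zero, hw0, mul_zero] at e1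
      exact_mod_cast e1
    · rintro ⟨p, b, v, lam, hp1, hp2, hC⟩
      apply ha2
      refine ⟨La a, _, p, b, v, lam, pow_ne_zero m.natAbs hc, fun w' hw' n => hseq a w' hw' n, ?_,
        hp2, hC⟩
      refine hp1.trans ?_
      have e1 : Real.log ((Cn * H : ℕ) : ℝ) ≤ 2 * Real.log H := by
        push_cast
        rw [Real.log_mul hC0.ne' hH0.ne']
        have := mul_le_mul_of_nonneg_right hηG hl0.le
        linarith
      have e2 : 0 ≤ Real.log ((Cn * H : ℕ) : ℝ) := Real.log_natCast_nonneg _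
      calc Real.log ((Cn * H : ℕ) : ℝ) ^ α₀ ≤ (2 * Real.log H) ^ α₀ :=
            Real.rpow_le_rpow e2 e1 hα₀.le
        _ = 2 ^ α₀ * Real.log H ^ α₀ := Real.mul_rpow (by norm_num) hl0.le
        _ ≤ Real.log H * Real.log H ^ α₀ :=
            mul_le_mul_of_nonneg_right (by linarith) (Real.rpow_nonneg hl0.le _)
        _ = Real.log H ^ (α₀ + 1) := by
            rw [Real.rpow_add hl0, Real.rpow_one, mul_comm]
  have hQH := hQ (Cn * H) (by omega)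
  have b1 : (2 * ((Cn * H : ℕ) : ℝ) + 1) ^ (d - 1) ≤
      3 ^ (d - 1) * (Cn : ℝ) ^ (d - 1) * (H : ℝ) ^ (d - 1) := by
    rw [← mul_pow, ← mul_pow]
    apply pow_le_pow_left₀ (by positivity)
    push_cast
    nlinarith
  have b2 : ((Cn * H : ℕ) : ℝ) ^ (-δ₀) ≤ (H : ℝ) ^ (-δ₀) := by
    apply Real.rpow_le_rpow_of_nonpos hH0 _ (by linarith)
    exact_mod_cast hHC
  have b3 : (Cn : ℝ) ^ (d - 1) ≤ (H : ℝ) ^ (δ₀ / 4) := by
    rw [← Real.exp_log hC0, ← Real.exp_nat_mul, Real.rpow_def_of_pos hH0]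
    apply Real.exp_le_exp.2
    have e1 : ((d - 1 : ℕ) : ℝ) = (d : ℝ) - 1 := by
      rw [Nat.cast_sub hd1, Nat.cast_one]
    rw [e1]
    have e2 : ((d : ℝ) - 1) * Real.log Cn ≤ ((d : ℝ) - 1) * (1 / W * G * Real.log H) :=
      mul_le_mul_of_nonneg_left hlogC (by linarith)
    have e3 := mul_le_mul_of_nonneg_right hηG2 hl0.le
    linarith
  have b4 : (3 : ℝ) ^ (d - 1) ≤ (H : ℝ) ^ (δ₀ / 4) := hH₃ H (by omega)
  have b5 : (H : ℝ) ^ (δ₀ / 4) * (H : ℝ) ^ (δ₀ / 4) * (H : ℝ) ^ (-δ₀) = (H : ℝ) ^ (-(δ₀ / 2)) := by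
    rw [← Real.rpow_add hH0, ← Real.rpow_add hH0]
    congr 1
    ring
  have b6 : (0 : ℝ) < (H : ℝ) ^ (-δ₀) := Real.rpow_pos_of_pos hH0 _
  have b7 : (0 : ℝ) < (H : ℝ) ^ (δ₀ / 4) := Real.rpow_pos_of_pos hH0 _
  calc (((hyp c m H).filter (fun a => ¬ HasCert c a m (Real.log H ^ (α₀ + 1)))).card : ℝ)
      ≤ _ := by exact_mod_cast hcard
    _ ≤ (2 * ((Cn * H : ℕ) : ℝ) + 1) ^ (d - 1) * ((Cn * H : ℕ) : ℝ) ^ (-δ₀) := hQH
    _ ≤ (3 ^ (d - 1) * (Cn : ℝ) ^ (d - 1) * (H : ℝ) ^ (d - 1)) * (H : ℝ) ^ (-δ₀) :=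
        mul_le_mul b1 b2 (Real.rpow_nonneg (by positivity) _) (by positivity)
    _ ≤ ((H : ℝ) ^ (δ₀ / 4) * (H : ℝ) ^ (δ₀ / 4) * (H : ℝ) ^ (d - 1)) * (H : ℝ) ^ (-δ₀) := by
        apply mul_le_mul_of_nonneg_right _ b6.le
        apply mul_le_mul_of_nonneg_right _ (by positivity)
        exact mul_le_mul b4 b3 (by positivity) b7.le
    _ = (H : ℝ) ^ (d - 1) *
          ((H : ℝ) ^ (δ₀ / 4) * (H : ℝ) ^ (δ₀ / 4) * (H : ℝ) ^ (-δ₀)) := by ring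
    _ = _ := by rw [b5]

end Pool.Agent.Q183.SKY
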